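import Mathlib

/-!
Finite partial semigroups with local units, their contracted algebras over a field, and the
modules given by partial actions on finite sets.
-/

set_option linter.unusedSectionVars false

namespace Pool.Agent.T6.H92.Gendo

open Finset

universe u

/-- A finite partial semigroup (equivalently a semigroup with zero) with a complete system of
local units `isIdem`. -/
structure PSG (S : Type) [DecidableEq S] where
  mul : S → S → Option S
  assoc : ∀ a b c, (mul a b).bind (fun x => mul x c) = (mul b c).bind (fun x => mul a x)
  isIdem : S → Bool
  lft : S → S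
  rgt : S → S
  lft_idem : ∀ s, isIdem (lft s) = true
  rgt_idem : ∀ s, isIdem (rgt s) = true
  hl : ∀ e s, isIdem e = true → mul e s = if e = lft s then some s else none
  hr : ∀ e s, isIdem e = true → mul s e = if e = rgt s then some s else none

variable {S : Type} [Fintype S] [DecidableEq S] {T : Type} [Fintype T] [DecidableEq T]

/-- A partial action of `P` on `X`. -/
structure PAct (P : PSG S) (X : Type) where
  act : S → X → Option X
  assoc : ∀ s t x, (P.mul s t).bind (fun r => act r x) = (act t x).bind (act s)
  vtx : X → S
  vtx_idem : ∀ x, P.isIdem (vtx x) = true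
  unit : ∀ e x, P.isIdem e = true → act e x = if e = vtx x then some x else none

/-- The opposite partial semigroup. -/
def PSG.op (P : PSG S) : PSG S where
  mul a b := P.mul b a
  assoc a b c := (P.assoc c b a).symm
  isIdem := P.isIdem
  lft := P.rgt
  rgt := P.lft
  lft_idem := P.rgt_idem
  rgt_idem := P.lft_idem
  hl := P.hr
  hr := P.hl

/-- The left regular action. -/
def PSG.self (P : PSG S) : PAct P S where
  act := P.mul
  assoc s t x := P.assoc s t x
  vtx := P.lft
  vtx_idem := P.lft_idem
  unit := P.hl

section conv

variable {K : Type u} [Field K] {X : Type} [Fintype X] [DecidableEq X]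
  {W : Type u} [AddCommGroup W] [Module K W]

/-- The convolution of a function on `S` with a function on `X`. -/
def conv (act : S → X → Option X) (a : S → K) (v : X → W) : X → W :=
  fun y => ∑ s, ∑ x, if act s x = some y then a s • v x else 0

theorem conv_add_left (act : S → X → Option X) (a b : S → K) (v : X → W) :
    conv act (a + b) v = conv act a v + conv act b v := by
  ext y
  simp only [conv, Pi.add_apply, ← Finset.sum_add_distrib]
  refine Finset.sum_congr rfl fun s _ => Finset.sum_congr rfl fun x _ => ?_
  split_ifs <;> simp [add_smul]

theorem conv_add_right (act : S → X → Option X) (a : S → K) (v w : X → W) :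
    conv act a (v + w) = conv act a v + conv act a w := by
  ext y
  simp only [conv, Pi.add_apply, ← Finset.sum_add_distrib]
  refine Finset.sum_congr rfl fun s _ => Finset.sum_congr rfl fun x _ => ?_
  split_ifs <;> simp [smul_add]

theorem conv_smul_left (act : S → X → Option X) (c : K) (a : S → K) (v : X → W) :
    conv act (c • a) v = c • conv act a v := by
  ext y
  simp only [conv, Pi.smul_apply, Finset.smul_sum]
  refine Finset.sum_congr rfl fun s _ => Finset.sum_congr rfl fun x _ => ?_
  split_ifs <;> simp [mul_smul]

theorem conv_smul_right (act : S → X → Option X) (c : K) (a : S → K) (v : X → W) :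
    conv act a (c • v) = c • conv act a v := by
  ext y
  simp only [conv, Pi.smul_apply, Finset.smul_sum]
  refine Finset.sum_congr rfl fun s _ => Finset.sum_congr rfl fun x _ => ?_
  split_ifs
  · exact smul_comm _ _ _
  · simp

theorem conv_zero_left (act : S → X → Option X) (v : X → W) :
    conv act (0 : S → K) v = 0 := by
  ext y; simp [conv]

theorem conv_zero_right (act : S → X → Option X) (a : S → K) :
    conv act a (0 : X → W) = 0 := by
  ext y; simp [conv]

theorem conv_conv (act : S → X → Option X) (a b : S → K) (v : X → W) (z : X) :
    conv act a (conv act b v) z = ∑ s, ∑ t, ∑ x,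
      if (act t x).bind (act s) = some z then (a s * b t) • v x else 0 := by
  simp only [conv]
  refine Finset.sum_congr rfl fun s _ => ?_
  have h1 : ∀ y, (if act s y = some z then
      a s • ∑ t, ∑ x, (if act t x = some y then b t • v x else 0) else 0)
      = ∑ t, ∑ x, if act s y = some z ∧ act t x = some y then (a s * b t) • v x else 0 := by
    intro y
    by_cases h : act s y = some z
    · simp only [h, if_true, true_and, Finset.smul_sum]
      refine Finset.sum_congr rfl fun t _ => Finset.sum_congr rfl fun x _ => ?_
      split_ifs <;> simp [mul_smul]
    · simp [h]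
  simp only [h1]
  rw [Finset.sum_comm]
  refine Finset.sum_congr rfl fun t _ => ?_
  rw [Finset.sum_comm]
  refine Finset.sum_congr rfl fun x _ => ?_
  cases h : act t x with
  | none => simp
  | some y =>
    simp only [Option.bind_some, Option.some.injEq]
    rw [Finset.sum_eq_single y]
    · simp
    · intro b _ hb
      rw [if_neg]; rintro ⟨_, h2⟩; exact hb h2.symm
    · simp

theorem conv_mul (P : PSG S) (act : S → X → Option X) (a b : S → K) (v : X → W) (z : X) :
    conv act (conv (W := K) P.mul a b) v z = ∑ s, ∑ t, ∑ x,
      if (P.mul s t).bind (fun r => act r x) = some z then (a s * b t) • v x else 0 := by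
  simp only [conv]
  have h1 : ∀ r x, (if act r x = some z then
      (∑ s, ∑ t, (if P.mul s t = some r then a s • b t else 0)) • v x else 0)
      = ∑ s, ∑ t, if act r x = some z ∧ P.mul s t = some r then (a s * b t) • v x else 0 := by
    intro r x
    by_cases h : act r x = some z
    · simp only [h, if_true, true_and, Finset.sum_smul]
      refine Finset.sum_congr rfl fun s _ => Finset.sum_congr rfl fun t _ => ?_
      split_ifs <;> simp
    · simp [h]
  simp only [h1]
  rw [Finset.sum_comm]
  calc ∑ x, ∑ r, ∑ s, ∑ t,
        (if act r x = some z ∧ P.mul s t = some r then (a s * b t) • v x else 0)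
      = ∑ x, ∑ s, ∑ t, ∑ r,
        (if act r x = some z ∧ P.mul s t = some r then (a s * b t) • v x else 0) := by
        refine Finset.sum_congr rfl fun x _ => ?_
        rw [Finset.sum_comm]
        exact Finset.sum_congr rfl fun s _ => Finset.sum_comm
    _ = ∑ s, ∑ t, ∑ x, ∑ r,
        (if act r x = some z ∧ P.mul s t = some r then (a s * b t) • v x else 0) := by
        rw [Finset.sum_comm]
        exact Finset.sum_congr rfl fun s _ => Finset.sum_comm
    _ = _ := by
        refine Finset.sum_congr rfl fun s _ => Finset.sum_congr rfl fun t _ =>
          Finset.sum_congr rfl fun x _ => ?_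
        cases h : P.mul s t with
        | none => simp
        | some r =>
          simp only [Option.bind_some, Option.some.injEq]
          rw [Finset.sum_eq_single r]
          · simp
          · intro b _ hb
            rw [if_neg]; rintro ⟨_, h2⟩; exact hb h2.symm
          · simp

/-- the unit of the contracted algebra -/
def unitFn (K : Type u) [Field K] (P : PSG S) : S → K := fun s => if P.isIdem s = true then 1 else 0

theorem conv_unit (P : PSG S) (M : PAct P X) (v : X → W) :
    conv M.act (unitFn K P) v = v := by
  ext y
  simp only [conv, unitFn]
  rw [Finset.sum_comm, Finset.sum_eq_single y]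
  · rw [Finset.sum_eq_single (M.vtx y)]
    · simp [M.unit _ y (M.vtx_idem y), M.vtx_idem y]
    · intro s _ hs
      by_cases hi : P.isIdem s = true
      · rw [M.unit s y hi, if_neg hs]; simp
      · simp [hi]
    · simp
  · intro x _ hx
    apply Finset.sum_eq_zero
    intro s _
    by_cases hi : P.isIdem s = true
    · rw [M.unit s x hi]
      split_ifs with h1 h2
      · simp only [Option.some.injEq] at h2; exact absurd h2 hx
      · rfl
      · simp_all
      · rfl
    · simp [hi]
  · simp

theorem conv_mul_unit (P : PSG S) (a : S → K) :
    conv (W := K) P.mul a (unitFn K P) = a := by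
  ext y
  simp only [conv, unitFn]
  rw [Finset.sum_eq_single y]
  · rw [Finset.sum_eq_single (P.rgt y)]
    · simp [P.hr _ y (P.rgt_idem y), P.rgt_idem y]
    · intro s _ hs
      by_cases hi : P.isIdem s = true
      · rw [P.hr s y hi, if_neg hs]; simp
      · simp [hi]
    · simp
  · intro x _ hx
    apply Finset.sum_eq_zero
    intro s _
    by_cases hi : P.isIdem s = true
    · rw [P.hr s x hi]
      split_ifs with h1 h2
      · simp only [Option.some.injEq] at h2; exact absurd h2 hx
      · rfl
      · simp_all
      · rfl
    · simp [hi]
  · simp

end conv

/-! ### The algebra -/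

/-- The contracted algebra of a partial semigroup. -/
def Alg (K : Type u) (_P : PSG S) : Type u := S → K

variable (K : Type u) [Field K] (P : PSG S)

instance : AddCommGroup (Alg K P) := inferInstanceAs (AddCommGroup (S → K))
instance : Module K (Alg K P) := inferInstanceAs (Module K (S → K))
instance : Module.Finite K (Alg K P) := inferInstanceAs (Module.Finite K (S → K))

instance : Mul (Alg K P) := ⟨fun a b => conv (K := K) (W := K) P.mul a b⟩
instance : One (Alg K P) := ⟨unitFn K P⟩

theorem Alg.mul_def (a b : Alg K P) : a * b = conv (K := K) (W := K) P.mul a b := rfl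
theorem Alg.one_def : (1 : Alg K P) = unitFn K P := rfl

theorem conv_assoc {X : Type} [Fintype X] [DecidableEq X] {W : Type u} [AddCommGroup W]
    [Module K W] (M : PAct P X) (a b : S → K) (v : X → W) :
    conv M.act (conv (W := K) P.mul a b) v = conv M.act a (conv M.act b v) := by
  ext z
  rw [conv_mul, conv_conv]
  simp only [M.assoc]

instance : Ring (Alg K P) :=
  { (inferInstance : AddCommGroup (Alg K P)), (inferInstance : Mul (Alg K P)),
    (inferInstance : One (Alg K P)) with
    left_distrib := fun a b c => conv_add_right (K := K) (W := K) P.mul a b c
    right_distrib := fun a b c => conv_add_left (K := K) (W := K) P.mul a b c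
    zero_mul := fun a => conv_zero_left (K := K) (W := K) P.mul a
    mul_zero := fun a => conv_zero_right (K := K) (W := K) P.mul a
    mul_assoc := fun a b c => conv_assoc K P P.self a b c
    one_mul := fun a => conv_unit P P.self a
    mul_one := fun a => conv_mul_unit P a }

noncomputable instance : Algebra K (Alg K P) :=
  Algebra.ofModule (fun c a b => conv_smul_left (K := K) (W := K) P.mul c a b)
    (fun c a b => conv_smul_right (K := K) (W := K) P.mul c a b)

variable {P}

/-- The module attached to a partial action, with coefficients in `W`. -/
def PAct.V {X : Type} (_M : PAct P X) (W : Type u) : Type u := X → W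

section V

variable {X : Type} [Fintype X] [DecidableEq X] (M : PAct P X)
  (W : Type u) [AddCommGroup W] [Module K W]

instance : AddCommGroup (M.V W) := inferInstanceAs (AddCommGroup (X → W))
instance : Module K (M.V W) := inferInstanceAs (Module K (X → W))

instance : Module (Alg K P) (M.V W) where
  smul a v := conv (K := K) M.act a v
  one_smul v := conv_unit P M v
  mul_smul a b v := conv_assoc K P M a b v
  smul_zero a := conv_zero_right _ _
  zero_smul v := conv_zero_left _ _
  smul_add a v w := conv_add_right _ _ _ _
  add_smul a b v := conv_add_left _ _ _ _

theorem PAct.smul_def (a : Alg K P) (v : M.V W) : a • v = conv (K := K) M.act a v := rfl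

instance : IsScalarTower K (Alg K P) (M.V W) := ⟨fun c a v => conv_smul_left _ _ _ _⟩

end V

end Pool.Agent.T6.H92.Gendo
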