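import Pool.Agent.T6.H92.Gendo.DataP

/-! Generated data. -/

set_option linter.unusedSectionVars false
set_option linter.unusedVariables false
set_option linter.style.longLine false
set_option maxRecDepth 100000

namespace Pool.Agent.T6.H92.Gendo

open CategoryTheory

universe u


/-- the opposite of the corner `eAe`, a symmetric Nakayama algebra of dimension 12 -/
def QB : PSG (Fin 12) where
  mul := actT 2068248486980778636624171485533420221623421215838194561205087176129299335921729596123541050918790477298814400022905930350664576228499041923010535617053991918449693693577337416138402239302684622094000009135230941167615 12
  assoc := by decide +kernel
  isIdem s := (2568 >>> s.val) % 2 == 1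
  lft := vecT 406778735349572899
  rgt := vecT 409030808086619235
  lft_idem := by decide +kernel
  rgt_idem := by decide +kernel
  hl := by decide +kernel
  hr := by decide +kernel

/-- the module `M = Ae` -/
def MR : PAct QB (Fin 16) where
  act := actT 4872480231641611993646677003162754485355261804103064825064669286470383829764597446125333033473480917976164112009850004357636906128171584463389762552390474189856515853089698467954565126819161798359233802378113508915974278328894502276193371576736577066079379962072607645868538356927882592255 16
  assoc := by decide +kernel
  vtx := vecT 426538419197913758731363
  vtx_idem := by decide +kernel
  unit := by decide +kernel

/-- the action of `A` on `M = Ae` -/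
def ML : PAct PA (Fin 16) where
  act := actT 55498309588977754211244623484106931782887556817899866571035983962853396702613762768591702434887081914363343228506206499552533755305654953366561377197214385477207907199970189096479790554002421653820791340036742475319363876370792950071396087301170907145372661672347020396749916517991955311155463749537233681429738553575989902371045169461723676697417177430535954873484286209854648905312964323022438272499955224924353134261854943199367968151360442359178096968480745657617011753864402364642978752095679826412470092328404232121617405803136571948982671096869872334033503560730101615042641809708559500547457023 16
  assoc := by decide +kernel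
  vtx := vecT 935868780714423268879470
  vtx_idem := by decide +kernel
  unit := by decide +kernel

/-- the non-projective part of `M` -/
def MN : PAct QB (Fin 4) where
  act := actT 1766847064776932749806989330816281489484424897577882938665884105457008639 4
  assoc := by decide +kernel
  vtx := vecT 304227
  vtx_idem := by decide +kernel
  unit := by decide +kernel

theorem m_split₁ : IsSES QB.self MR MN (vecT 556665533962096736 : Fin 12 → Fin 16) (vecT 201793 : Fin 4 → Fin 16) where
  finj := by decide +kernel
  ginj := by decide +kernel
  disj := by decide +kernel
  cover := by decide +kernel
  hf := by decide +kernel
  hg := by decide +kernel

theorem m_split₂ : IsSES MN MR QB.self (vecT 201793 : Fin 4 → Fin 16) (vecT 556665533962096736 : Fin 12 → Fin 16) where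
  finj := by decide +kernel
  ginj := by decide +kernel
  disj := by decide +kernel
  cover := by decide +kernel
  hf := by decide +kernel
  hg := by decide +kernel

theorem symData : SymData QB (fun s => (261 >>> s.val) % 2 == 1) (vecT 295068387182126243 : Fin 12 → Fin 12) where
  form := by decide +kernel
  bij := by decide +kernel
  comm := by decide +kernel

theorem endData : EndData ML MR (vecT 19955538290479228367716406391264542720 : Fin 25 → Fin 16) (vecT 20537081098621884547146985861470520320 : Fin 25 → Fin 16) where
  comm := by decide +kernel
  gen := by decide +kernel
  inj := by decide +kernel
  span := by decide +kernel
  ann := by decide +kernel

theorem gendo (K : Type u) [Field K] : IsGendoSymmetric K (Alg K PA) :=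
  gendoSymmetric_of K endData symData m_split₁ m_split₂

end Pool.Agent.T6.H92.Gendo
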