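import Pool.Agent.T6.H92.Gendo.DataP

/-! Generated data. -/

set_option linter.unusedSectionVars false
set_option linter.unusedVariables false
set_option linter.style.longLine false
set_option maxRecDepth 100000

namespace Pool.Agent.T6.H92.Gendo

universe u


variable (K : Type u) [Field K] {T : Type} [Fintype T] [DecidableEq T] {Q : PSG T}

/-- vertices [0, 3, 4], arrows [(1, 2), (2, 0)] -/
def L0 : PAct PA (Fin 3) where
  act := actT 76957043352332967211482500195592995713046365762576814882058164343776711578517036668149717303439127238524208676863 3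
  assoc := by decide +kernel
  vtx := vtxT 11374
  vtx_idem := by decide +kernel
  unit := by decide +kernel

/-- vertices [0, 0, 1, 2, 3, 4], arrows [(1, 4), (4, 5), (5, 0), (2, 5), (3, 0), (1, 2), (2, 3)] -/
def L1 : PAct PA (Fin 6) where
  act := actT 5917325888518703330601899281527677229104500801473045425057599651441284229844309099631873470626935833218496872710110851012039337940113620144016891608230190617657202381796531968636348644155137384998264317306173079995787360861215 6
  assoc := by decide +kernel
  vtx := vtxT 373053902
  vtx_idem := by decide +kernel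
  unit := by decide +kernel

/-- vertices [0, 1, 2], arrows [(0, 1), (1, 2)] -/
def L2 : PAct PA (Fin 3) where
  act := actT 7214656300721591268210956232078260459379030299299494114305181285387001234666919515433463306991923637559876386815 3
  assoc := by decide +kernel
  vtx := vtxT 25294
  vtx_idem := by decide +kernel
  unit := by decide +kernel

theorem ses_L0_L1_L2 : IsSES L0 L1 L2 (vecT 5248 : Fin 3 → Fin 6) (vecT 3137 : Fin 3 → Fin 6) where
  finj := by decide +kernel
  ginj := by decide +kernel
  disj := by decide +kernel
  cover := by decide +kernel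
  hf := by decide +kernel
  hg := by decide +kernel

theorem isinj_L1 : IsInj L1 (vecT 236427278 : Fin 6 → Fin 25) 0 where
  rel := by decide +kernel
  closed := by decide +kernel
  inj := by decide +kernel
  base := by decide +kernel

/-- vertices [0, 1, 2, 2], arrows [(3, 0), (0, 1), (1, 2)] -/
def L3 : PAct PA (Fin 4) where
  act := actT 316470378274053349947984887854984169217804355413638822291422697804622085101373194289975144599818176006962225317381571121014179865652108993530825801727 4
  assoc := by decide +kernel
  vtx := vtxT 811726
  vtx_idem := by decide +kernel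
  unit := by decide +kernel

/-- vertices [2], arrows [] -/
def L4 : PAct PA (Fin 1) where
  act := actT 1329227995784915872903807060280344575 1
  assoc := by decide +kernel
  vtx := vtxT 24
  vtx_idem := by decide +kernel
  unit := by decide +kernel

theorem ses_L2_L3_L4 : IsSES L2 L3 L4 (vecT 2080 : Fin 3 → Fin 4) (vecT 3 : Fin 1 → Fin 4) where
  finj := by decide +kernel
  ginj := by decide +kernel
  disj := by decide +kernel
  cover := by decide +kernel
  hf := by decide +kernel
  hg := by decide +kernel

theorem isinj_L3 : IsInj L3 (vecT 647922 : Fin 4 → Fin 25) 2 where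
  rel := by decide +kernel
  closed := by decide +kernel
  inj := by decide +kernel
  base := by decide +kernel

/-- vertices [0, 1, 2], arrows [(2, 0), (0, 1)] -/
def L5 : PAct PA (Fin 3) where
  act := actT 7214722812181454980284792945937462643519778057657243707841840347530643813587747762439604731809105792290615459839 3
  assoc := by decide +kernel
  vtx := vtxT 25294
  vtx_idem := by decide +kernel
  unit := by decide +kernel

theorem ses_L4_L3_L5 : IsSES L4 L3 L5 (vecT 2 : Fin 1 → Fin 4) (vecT 3104 : Fin 3 → Fin 4) where
  finj := by decide +kernel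
  ginj := by decide +kernel
  disj := by decide +kernel
  cover := by decide +kernel
  hf := by decide +kernel
  hg := by decide +kernel

/-- vertices [0, 1, 1, 2, 4, 5], arrows [(4, 0), (2, 4), (4, 5), (3, 0), (0, 1), (5, 1), (2, 3)] -/
def L6 : PAct PA (Fin 6) where
  act := actT 5917325888518703330601894684937520075554580607159254590888705512625756667387070898027058763170393969902007271330271914021137309171534616731796747024171332772769153379000361491559749278233766887887954008447843990929188268802047 6
  assoc := by decide +kernel
  vtx := vtxT 716987086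
  vtx_idem := by decide +kernel
  unit := by decide +kernel

/-- vertices [1, 4, 5], arrows [(0, 1), (1, 2)] -/
def L7 : PAct PA (Fin 3) where
  act := actT 76957043352263180243044892221380985563862394155939479359934303217091497861632825941405141957512138823771302658047 3
  assoc := by decide +kernel
  vtx := vtxT 21878
  vtx_idem := by decide +kernel
  unit := by decide +kernel

theorem ses_L5_L6_L7 : IsSES L5 L6 L7 (vecT 3104 : Fin 3 → Fin 6) (vecT 5250 : Fin 3 → Fin 6) where
  finj := by decide +kernel
  ginj := by decide +kernel
  disj := by decide +kernel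
  cover := by decide +kernel
  hf := by decide +kernel
  hg := by decide +kernel

theorem isinj_L6 : IsInj L6 (vecT 681091792 : Fin 6 → Fin 25) 1 where
  rel := by decide +kernel
  closed := by decide +kernel
  inj := by decide +kernel
  base := by decide +kernel

theorem isinj_L7 : IsInj L7 (vecT 21932 : Fin 3 → Fin 25) 2 where
  rel := by decide +kernel
  closed := by decide +kernel
  inj := by decide +kernel
  base := by decide +kernel

theorem lid_L5_1 : LId K Q L5 1 :=
  ses_L5_L6_L7.lid_sub (isinj_L6.lid 1) (isinj_L7.lid 0)

theorem lid_L4_2 : LId K Q L4 2 :=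
  ses_L4_L3_L5.lid_sub (isinj_L3.lid 2) (lid_L5_1 K)

theorem lid_L2_3 : LId K Q L2 3 :=
  ses_L2_L3_L4.lid_sub (isinj_L3.lid 3) (lid_L4_2 K)

theorem lid_L0_4 : LId K Q L0 4 :=
  ses_L0_L1_L2.lid_sub (isinj_L1.lid 4) (lid_L2_3 K)

/-- vertices [0, 1, 4, 5], arrows [(2, 0), (2, 3), (0, 1), (3, 1)] -/
def L8 : PAct PA (Fin 4) where
  act := actT 3273390607896139141883659003914589323515483381679075055128737152355115179261625236601854396063767593937035905268765340201462352688221909044834288533503 4
  assoc := by decide +kernel
  vtx := vtxT 700110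
  vtx_idem := by decide +kernel
  unit := by decide +kernel

/-- vertices [1, 2], arrows [(0, 1)] -/
def L9 : PAct PA (Fin 2) where
  act := actT 113026396813319000260560677211237976221531155910781016748259895812804313087 2
  assoc := by decide +kernel
  vtx := vtxT 790
  vtx_idem := by decide +kernel
  unit := by decide +kernel

theorem ses_L8_L6_L9 : IsSES L8 L6 L9 (vecT 167968 : Fin 4 → Fin 6) (vecT 98 : Fin 2 → Fin 6) where
  finj := by decide +kernel
  ginj := by decide +kernel
  disj := by decide +kernel
  cover := by decide +kernel
  hf := by decide +kernel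
  hg := by decide +kernel

/-- vertices [0, 2], arrows [(1, 0)] -/
def L10 : PAct PA (Fin 2) where
  act := actT 113078212145816597093331038631673866154824614307883206171730365390625177599 2
  assoc := by decide +kernel
  vtx := vtxT 782
  vtx_idem := by decide +kernel
  unit := by decide +kernel

theorem ses_L9_L3_L10 : IsSES L9 L3 L10 (vecT 65 : Fin 2 → Fin 4) (vecT 96 : Fin 2 → Fin 4) where
  finj := by decide +kernel
  ginj := by decide +kernel
  disj := by decide +kernel
  cover := by decide +kernel
  hf := by decide +kernel
  hg := by decide +kernel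

/-- vertices [0, 1, 3, 4], arrows [(0, 2), (2, 3), (1, 3), (0, 1)] -/
def L11 : PAct PA (Fin 4) where
  act := actT 3273390607896139144367973588301759592252362466026060899248577712965882533306777295209689788988250885688348761440588535248183605238171317024759826350079 4
  assoc := by decide +kernel
  vtx := vtxT 364238
  vtx_idem := by decide +kernel
  unit := by decide +kernel

theorem ses_L10_L1_L11 : IsSES L10 L1 L11 (vecT 96 : Fin 2 → Fin 6) (vecT 168001 : Fin 4 → Fin 6) where
  finj := by decide +kernel
  ginj := by decide +kernel
  disj := by decide +kernel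
  cover := by decide +kernel
  hf := by decide +kernel
  hg := by decide +kernel

theorem isinj_L11 : IsInj L11 (vecT 365892 : Fin 4 → Fin 25) 3 where
  rel := by decide +kernel
  closed := by decide +kernel
  inj := by decide +kernel
  base := by decide +kernel

theorem lid_L10_1 : LId K Q L10 1 :=
  ses_L10_L1_L11.lid_sub (isinj_L1.lid 1) (isinj_L11.lid 0)

theorem lid_L9_2 : LId K Q L9 2 :=
  ses_L9_L3_L10.lid_sub (isinj_L3.lid 2) (lid_L10_1 K)

theorem lid_L8_3 : LId K Q L8 3 :=
  ses_L8_L6_L9.lid_sub (isinj_L6.lid 3) (lid_L9_2 K)

/-- vertices [1, 5], arrows [(1, 0)] -/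
def L12 : PAct PA (Fin 2) where
  act := actT 1809251340516890428320669319771298787456150162143538038066096368678114164735 2
  assoc := by decide +kernel
  vtx := vtxT 694
  vtx_idem := by decide +kernel
  unit := by decide +kernel

/-- vertices [0, 1, 2, 4], arrows [(3, 0), (1, 3), (2, 0), (1, 2)] -/
def L13 : PAct PA (Fin 4) where
  act := actT 3180687160183177486209525872581473591359452716104268047555375164368139021455793350131913831108290397546944205362351274661897169243244170733465624379391 4
  assoc := by decide +kernel
  vtx := vtxT 385742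
  vtx_idem := by decide +kernel
  unit := by decide +kernel

theorem ses_L12_L6_L13 : IsSES L12 L6 L13 (vecT 161 : Fin 2 → Fin 6) (vecT 134208 : Fin 4 → Fin 6) where
  finj := by decide +kernel
  ginj := by decide +kernel
  disj := by decide +kernel
  cover := by decide +kernel
  hf := by decide +kernel
  hg := by decide +kernel

/-- vertices [0, 3], arrows [(0, 1)] -/
def L14 : PAct PA (Fin 2) where
  act := actT 1809251394333065553493296640760705352513521357318297087662371492892401205247 2
  assoc := by decide +kernel
  vtx := vtxT 110
  vtx_idem := by decide +kernel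
  unit := by decide +kernel

theorem ses_L13_L1_L14 : IsSES L13 L1 L14 (vecT 166976 : Fin 4 → Fin 6) (vecT 129 : Fin 2 → Fin 6) where
  finj := by decide +kernel
  ginj := by decide +kernel
  disj := by decide +kernel
  cover := by decide +kernel
  hf := by decide +kernel
  hg := by decide +kernel

theorem isinj_L14 : IsInj L14 (vecT 98 : Fin 2 → Fin 25) 1 where
  rel := by decide +kernel
  closed := by decide +kernel
  inj := by decide +kernel
  base := by decide +kernel

theorem lid_L13_1 : LId K Q L13 1 :=
  ses_L13_L1_L14.lid_sub (isinj_L1.lid 1) (isinj_L14.lid 0)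

theorem lid_L12_2 : LId K Q L12 2 :=
  ses_L12_L6_L13.lid_sub (isinj_L6.lid 2) (lid_L13_1 K)

/-- vertices [0], arrows [] -/
def L15 : PAct PA (Fin 1) where
  act := actT 42535295865117271334581583689220620287 1
  assoc := by decide +kernel
  vtx := vtxT 14
  vtx_idem := by decide +kernel
  unit := by decide +kernel

theorem ses_L9_L2_L15 : IsSES L9 L2 L15 (vecT 65 : Fin 2 → Fin 3) (vecT 0 : Fin 1 → Fin 3) where
  finj := by decide +kernel
  ginj := by decide +kernel
  disj := by decide +kernel
  cover := by decide +kernel
  hf := by decide +kernel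
  hg := by decide +kernel

theorem isproj_L8 : IsProj L8 (vecT 437543 : Fin 4 → Fin 25) 2 where
  rel := by decide +kernel
  closed := by decide +kernel
  inj := by decide +kernel
  base := by decide +kernel

theorem isproj_L6 : IsProj L6 (vecT 413915398 : Fin 6 → Fin 25) 2 where
  rel := by decide +kernel
  closed := by decide +kernel
  inj := by decide +kernel
  base := by decide +kernel

theorem pd_L9_3 : PDlt K L9 4 :=
  ses_L8_L6_L9.pd_quo (isproj_L8.pdlt K 2) (isproj_L6.pdlt K 3)

theorem isproj_L0 : IsProj L0 (vecT 5217 : Fin 3 → Fin 25) 1 where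
  rel := by decide +kernel
  closed := by decide +kernel
  inj := by decide +kernel
  base := by decide +kernel

theorem isproj_L1 : IsProj L1 (vecT 136921536 : Fin 6 → Fin 25) 1 where
  rel := by decide +kernel
  closed := by decide +kernel
  inj := by decide +kernel
  base := by decide +kernel

theorem pd_L2_4 : PDlt K L2 5 :=
  ses_L0_L1_L2.pd_quo (isproj_L0.pdlt K 3) (isproj_L1.pdlt K 4)

theorem pd_L15_4 : PDlt K L15 5 :=
  ses_L9_L2_L15.pd_quo (pd_L9_3 K) (pd_L2_4 K)

/-- vertices [1], arrows [] -/
def L16 : PAct PA (Fin 1) where
  act := actT 42495055564463663018800714582419570687 1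
  assoc := by decide +kernel
  vtx := vtxT 22
  vtx_idem := by decide +kernel
  unit := by decide +kernel

/-- vertices [0, 1, 2, 4, 5], arrows [(3, 0), (3, 4), (2, 0), (0, 1), (4, 1)] -/
def L17 : PAct PA (Fin 5) where
  act := actT 139111413974625104348446226931982207881180177440504641918469364940863020249931621248342871091533976052297036723115093116740738956585534827634567721139406197549313607499386070673957477941247 5
  assoc := by decide +kernel
  vtx := vtxT 22405838
  vtx_idem := by decide +kernel
  unit := by decide +kernel

theorem ses_L17_L6_L16 : IsSES L17 L6 L16 (vecT 5377056 : Fin 5 → Fin 6) (vecT 2 : Fin 1 → Fin 6) where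
  finj := by decide +kernel
  ginj := by decide +kernel
  disj := by decide +kernel
  cover := by decide +kernel
  hf := by decide +kernel
  hg := by decide +kernel

theorem ses_L8_L17_L4 : IsSES L8 L17 L4 (vecT 134176 : Fin 4 → Fin 5) (vecT 2 : Fin 1 → Fin 5) where
  finj := by decide +kernel
  ginj := by decide +kernel
  disj := by decide +kernel
  cover := by decide +kernel
  hf := by decide +kernel
  hg := by decide +kernel

theorem pd_L2_2 : PDlt K L2 3 :=
  ses_L0_L1_L2.pd_quo (isproj_L0.pdlt K 1) (isproj_L1.pdlt K 2)

theorem isproj_L3 : IsProj L3 (vecT 806447 : Fin 4 → Fin 25) 3 where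
  rel := by decide +kernel
  closed := by decide +kernel
  inj := by decide +kernel
  base := by decide +kernel

theorem pd_L4_3 : PDlt K L4 4 :=
  ses_L2_L3_L4.pd_quo (pd_L2_2 K) (isproj_L3.pdlt K 3)

theorem pd_L17_3 : PDlt K L17 4 :=
  ses_L8_L17_L4.pd_mid (isproj_L8.pdlt K 3) (pd_L4_3 K)

theorem pd_L16_4 : PDlt K L16 5 :=
  ses_L17_L6_L16.pd_quo (pd_L17_3 K) (isproj_L6.pdlt K 4)

theorem pd_L2_3 : PDlt K L2 4 :=
  ses_L0_L1_L2.pd_quo (isproj_L0.pdlt K 2) (isproj_L1.pdlt K 3)

theorem pd_L4_4 : PDlt K L4 5 :=
  ses_L2_L3_L4.pd_quo (pd_L2_3 K) (isproj_L3.pdlt K 4)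

/-- vertices [3], arrows [] -/
def L18 : PAct PA (Fin 1) where
  act := actT 42535295865117307932921825928970010623 1
  assoc := by decide +kernel
  vtx := vtxT 3
  vtx_idem := by decide +kernel
  unit := by decide +kernel

/-- vertices [0, 4], arrows [(1, 0)] -/
def L19 : PAct PA (Fin 2) where
  act := actT 1809251394333065553493296640760705352512275206072247557884636423132198993919 2
  assoc := by decide +kernel
  vtx := vtxT 366
  vtx_idem := by decide +kernel
  unit := by decide +kernel

theorem ses_L19_L0_L18 : IsSES L19 L0 L18 (vecT 64 : Fin 2 → Fin 3) (vecT 1 : Fin 1 → Fin 3) where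
  finj := by decide +kernel
  ginj := by decide +kernel
  disj := by decide +kernel
  cover := by decide +kernel
  hf := by decide +kernel
  hg := by decide +kernel

theorem ses_L12_L8_L19 : IsSES L12 L8 L19 (vecT 97 : Fin 2 → Fin 4) (vecT 64 : Fin 2 → Fin 4) where
  finj := by decide +kernel
  ginj := by decide +kernel
  disj := by decide +kernel
  cover := by decide +kernel
  hf := by decide +kernel
  hg := by decide +kernel

theorem isproj_L12 : IsProj L12 (vecT 692 : Fin 2 → Fin 25) 1 where
  rel := by decide +kernel
  closed := by decide +kernel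
  inj := by decide +kernel
  base := by decide +kernel

theorem pd_L19_3 : PDlt K L19 4 :=
  ses_L12_L8_L19.pd_quo (isproj_L12.pdlt K 2) (isproj_L8.pdlt K 3)

theorem pd_L18_4 : PDlt K L18 5 :=
  ses_L19_L0_L18.pd_quo (pd_L19_3 K) (isproj_L0.pdlt K 4)

/-- vertices [4], arrows [] -/
def L20 : PAct PA (Fin 1) where
  act := actT 42535295865117307931804933221383143423 1
  assoc := by decide +kernel
  vtx := vtxT 11
  vtx_idem := by decide +kernel
  unit := by decide +kernel

/-- vertices [0, 1, 5], arrows [(0, 1), (2, 1)] -/
def L21 : PAct PA (Fin 3) where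
  act := actT 76957043350231224257143728950643518424650466947595972281216714276681521478513538589554236549039114126435083616255 3
  assoc := by decide +kernel
  vtx := vtxT 22222
  vtx_idem := by decide +kernel
  unit := by decide +kernel

theorem ses_L21_L8_L20 : IsSES L21 L8 L20 (vecT 3104 : Fin 3 → Fin 4) (vecT 2 : Fin 1 → Fin 4) where
  finj := by decide +kernel
  ginj := by decide +kernel
  disj := by decide +kernel
  cover := by decide +kernel
  hf := by decide +kernel
  hg := by decide +kernel

theorem ses_L12_L21_L15 : IsSES L12 L21 L15 (vecT 65 : Fin 2 → Fin 3) (vecT 0 : Fin 1 → Fin 3) where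
  finj := by decide +kernel
  ginj := by decide +kernel
  disj := by decide +kernel
  cover := by decide +kernel
  hf := by decide +kernel
  hg := by decide +kernel

theorem pd_L9_2 : PDlt K L9 3 :=
  ses_L8_L6_L9.pd_quo (isproj_L8.pdlt K 1) (isproj_L6.pdlt K 2)

theorem pd_L15_3 : PDlt K L15 4 :=
  ses_L9_L2_L15.pd_quo (pd_L9_2 K) (pd_L2_3 K)

theorem pd_L21_3 : PDlt K L21 4 :=
  ses_L12_L21_L15.pd_mid (isproj_L12.pdlt K 3) (pd_L15_3 K)

theorem pd_L20_4 : PDlt K L20 5 :=
  ses_L21_L8_L20.pd_quo (pd_L21_3 K) (isproj_L8.pdlt K 4)

/-- vertices [5], arrows [] -/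
def L22 : PAct PA (Fin 1) where
  act := actT 42534038355721881529355541199391293439 1
  assoc := by decide +kernel
  vtx := vtxT 21
  vtx_idem := by decide +kernel
  unit := by decide +kernel

theorem ses_L16_L12_L22 : IsSES L16 L12 L22 (vecT 0 : Fin 1 → Fin 2) (vecT 1 : Fin 1 → Fin 2) where
  finj := by decide +kernel
  ginj := by decide +kernel
  disj := by decide +kernel
  cover := by decide +kernel
  hf := by decide +kernel
  hg := by decide +kernel

theorem pd_L2_1 : PDlt K L2 2 :=
  ses_L0_L1_L2.pd_quo (isproj_L0.pdlt K 0) (isproj_L1.pdlt K 1)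

theorem pd_L4_2 : PDlt K L4 3 :=
  ses_L2_L3_L4.pd_quo (pd_L2_1 K) (isproj_L3.pdlt K 2)

theorem pd_L17_2 : PDlt K L17 3 :=
  ses_L8_L17_L4.pd_mid (isproj_L8.pdlt K 2) (pd_L4_2 K)

theorem pd_L16_3 : PDlt K L16 4 :=
  ses_L17_L6_L16.pd_quo (pd_L17_2 K) (isproj_L6.pdlt K 3)

theorem pd_L22_4 : PDlt K L22 5 :=
  ses_L16_L12_L22.pd_quo (pd_L16_3 K) (isproj_L12.pdlt K 4)

end Pool.Agent.T6.H92.Gendo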