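import Pool.Agent.T6.H92.Gendo.Tab

/-! Generated data. -/

set_option linter.unusedSectionVars false
set_option linter.unusedVariables false
set_option linter.style.longLine false
set_option maxRecDepth 100000

namespace Pool.Agent.T6.H92.Gendo

universe u


/-- the partial semigroup of the algebra `A` of dimension 25; idempotents [14, 22, 24, 3, 11, 21] -/
def PA : PSG (Fin 25) where
  mul := actT 40472652523447467216018814917513992333722564520180330610940535646085344552079480045514576019639907443950779130255780999280014024376877066100255877852856504777155443476925462723463508802054011285515800264664327992135424802590291223397409675156886139733356472488338827482242960623760642426173316695765287143302941409790441115186992636694257697411094593982197509926125867694452823821703448408179226847917799431812295143200883091570837078108883124982808599357127660043704624147717008079855366237882298448457364845888690031498082264827061732352708387742713820323375556390312680923588407714829963387167265536669871913868145420283326549105587338335354683319399744072519910347497154036156438923131311976495534184933097180147573955093837990275689570770382246719788287466105562598348343341045692682478816826321394904181376956168963013830258400138982787855535124370072147868597244675493826487304389974656579430232428546764658694706748811889801993125887 25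
  assoc := by decide +kernel
  isIdem s := (23087112 >>> s.val) % 2 == 1
  lft := vtxT 32927831259241905289305054229359070670
  rgt := vtxT 32844753229543424693612448654341290094
  lft_idem := by decide +kernel
  rgt_idem := by decide +kernel
  hl := by decide +kernel
  hr := by decide +kernel

/-- depth function -/
def dep (s : Fin 25) : ℕ := (41539763915620695632257021330326595 >>> (5 * s.val)) % 32

theorem dep_zero : ∀ s, dep s = 0 ↔ PA.isIdem s = true := by decide +kernel
theorem dep_add : ∀ s t r, PA.mul s t = some r → dep s + dep t ≤ dep r := by decide +kernel
theorem dep_le : ∀ s, dep s ≤ 8 := by decide +kernel

end Pool.Agent.T6.H92.Gendo
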