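import Pool.Agent.T6.H92.Gendo.DataP

/-! Generated data. -/

set_option linter.unusedSectionVars false
set_option linter.unusedVariables false
set_option linter.style.longLine false
set_option maxRecDepth 100000

namespace Pool.Agent.T6.H92.Gendo

universe u


variable (K : Type u) [Field K] {S : Type} [Fintype S] [DecidableEq S] {P : PSG S}

/-- vertices [0, 3], arrows [(1, 0)] -/
def R0 : PAct PA.op (Fin 2) where
  act := actT 1809251394333065553493296640760705352513521357318297087662371492891392475135 2
  assoc := by decide +kernel
  vtx := vtxT 110
  vtx_idem := by decide +kernel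
  unit := by decide +kernel

/-- vertices [0, 0, 1, 2, 3, 4], arrows [(4, 0), (5, 4), (1, 5), (5, 2), (1, 3), (2, 0), (3, 2)] -/
def R1 : PAct PA.op (Fin 6) where
  act := actT 5917325888513969208290505745371160338209908685674050119231405993690097837409634233486300193467561160324234490338026696139815603011537272096185924171701801433931149440957971894814873331876873527630788749219706579676915054935071 6
  assoc := by decide +kernel
  vtx := vtxT 373053902
  vtx_idem := by decide +kernel
  unit := by decide +kernel

/-- vertices [0, 1, 2, 4], arrows [(0, 3), (3, 1), (0, 2), (2, 1)] -/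
def R2 : PAct PA.op (Fin 4) where
  act := actT 3180687071488478379026030773208090384040182981853020769144389506149972214380372274779297598545509041295530060737368151345303655300978730872445220159487 4
  assoc := by decide +kernel
  vtx := vtxT 385742
  vtx_idem := by decide +kernel
  unit := by decide +kernel

theorem ses_R0_R1_R2 : IsSES R0 R1 R2 (vecT 128 : Fin 2 → Fin 6) (vecT 166977 : Fin 4 → Fin 6) where
  finj := by decide +kernel
  ginj := by decide +kernel
  disj := by decide +kernel
  cover := by decide +kernel
  hf := by decide +kernel
  hg := by decide +kernel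

theorem isinj_R1 : IsInj R1 (vecT 136921102 : Fin 6 → Fin 25) 0 where
  rel := by decide +kernel
  closed := by decide +kernel
  inj := by decide +kernel
  base := by decide +kernel

/-- vertices [0, 1, 1, 2, 4, 5], arrows [(0, 4), (4, 1), (5, 4), (0, 3), (2, 0), (2, 5), (3, 1)] -/
def R3 : PAct PA.op (Fin 6) where
  act := actT 5917325888513800883941651600828771477160664990209213616202449204799650427101113892890428432812216930559619654013155848636263270658225969348469178959283511222831862745361086744366973297203711208621235373115035415612214044786687 6
  assoc := by decide +kernel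
  vtx := vtxT 716987086
  vtx_idem := by decide +kernel
  unit := by decide +kernel

/-- vertices [1, 5], arrows [(0, 1)] -/
def R4 : PAct PA.op (Fin 2) where
  act := actT 1809251340518436302719246468416370154988982360567164397346115415385674088447 2
  assoc := by decide +kernel
  vtx := vtxT 694
  vtx_idem := by decide +kernel
  unit := by decide +kernel

theorem ses_R2_R3_R4 : IsSES R2 R3 R4 (vecT 134176 : Fin 4 → Fin 6) (vecT 162 : Fin 2 → Fin 6) where
  finj := by decide +kernel
  ginj := by decide +kernel
  disj := by decide +kernel
  cover := by decide +kernel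
  hf := by decide +kernel
  hg := by decide +kernel

theorem isinj_R3 : IsInj R3 (vecT 413901510 : Fin 6 → Fin 25) 1 where
  rel := by decide +kernel
  closed := by decide +kernel
  inj := by decide +kernel
  base := by decide +kernel

theorem isinj_R4 : IsInj R4 (vecT 692 : Fin 2 → Fin 25) 1 where
  rel := by decide +kernel
  closed := by decide +kernel
  inj := by decide +kernel
  base := by decide +kernel

theorem rid_R2_1 : RId K P R2 1 :=
  ses_R2_R3_R4.rid_sub (isinj_R3.rid 1) (isinj_R4.rid 0)

theorem rid_R0_2 : RId K P R0 2 :=
  ses_R0_R1_R2.rid_sub (isinj_R1.rid 2) (rid_R2_1 K)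

/-- vertices [1, 4], arrows [(1, 0)] -/
def R5 : PAct PA.op (Fin 2) where
  act := actT 1809251342098168885888932038593406829105561671473222709409751964136805236735 2
  assoc := by decide +kernel
  vtx := vtxT 374
  vtx_idem := by decide +kernel
  unit := by decide +kernel

/-- vertices [0, 2], arrows [(0, 1)] -/
def R6 : PAct PA.op (Fin 2) where
  act := actT 113078212145816597093331040004686146537958019885954308782144686590827429887 2
  assoc := by decide +kernel
  vtx := vtxT 782
  vtx_idem := by decide +kernel
  unit := by decide +kernel

theorem ses_R5_R2_R6 : IsSES R5 R2 R6 (vecT 97 : Fin 2 → Fin 4) (vecT 64 : Fin 2 → Fin 4) where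
  finj := by decide +kernel
  ginj := by decide +kernel
  disj := by decide +kernel
  cover := by decide +kernel
  hf := by decide +kernel
  hg := by decide +kernel

theorem rid_R2_3 : RId K P R2 3 :=
  ses_R2_R3_R4.rid_sub (isinj_R3.rid 3) (isinj_R4.rid 2)

/-- vertices [0, 1, 2, 2], arrows [(0, 2), (1, 0), (3, 1)] -/
def R7 : PAct PA.op (Fin 4) where
  act := actT 316467454397565381560607771991929370016194059072858640878155137418467210056603469711699588814843152834423930980433059456105875472366059044340357922815 4
  assoc := by decide +kernel
  vtx := vtxT 811726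
  vtx_idem := by decide +kernel
  unit := by decide +kernel

/-- vertices [1, 2], arrows [(1, 0)] -/
def R8 : PAct PA.op (Fin 2) where
  act := actT 111366526816915869669682618426360351600216664202974038781743308736980582399 2
  assoc := by decide +kernel
  vtx := vtxT 790
  vtx_idem := by decide +kernel
  unit := by decide +kernel

theorem ses_R6_R7_R8 : IsSES R6 R7 R8 (vecT 64 : Fin 2 → Fin 4) (vecT 97 : Fin 2 → Fin 4) where
  finj := by decide +kernel
  ginj := by decide +kernel
  disj := by decide +kernel
  cover := by decide +kernel
  hf := by decide +kernel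
  hg := by decide +kernel

theorem isinj_R7 : IsInj R7 (vecT 647727 : Fin 4 → Fin 25) 2 where
  rel := by decide +kernel
  closed := by decide +kernel
  inj := by decide +kernel
  base := by decide +kernel

/-- vertices [0, 1, 4, 5], arrows [(0, 2), (3, 2), (1, 0), (1, 3)] -/
def R9 : PAct PA.op (Fin 4) where
  act := actT 3273390607896139141883661540055813587304233260702152268035302898112474683884583917356585410248947163685029061793843884745096617774883678215168661127167 4
  assoc := by decide +kernel
  vtx := vtxT 700110
  vtx_idem := by decide +kernel
  unit := by decide +kernel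

theorem ses_R8_R3_R9 : IsSES R8 R3 R9 (vecT 97 : Fin 2 → Fin 6) (vecT 168000 : Fin 4 → Fin 6) where
  finj := by decide +kernel
  ginj := by decide +kernel
  disj := by decide +kernel
  cover := by decide +kernel
  hf := by decide +kernel
  hg := by decide +kernel

theorem isinj_R9 : IsInj R9 (vecT 437543 : Fin 4 → Fin 25) 2 where
  rel := by decide +kernel
  closed := by decide +kernel
  inj := by decide +kernel
  base := by decide +kernel

theorem rid_R8_1 : RId K P R8 1 :=
  ses_R8_R3_R9.rid_sub (isinj_R3.rid 1) (isinj_R9.rid 0)

theorem rid_R6_2 : RId K P R6 2 :=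
  ses_R6_R7_R8.rid_sub (isinj_R7.rid 2) (rid_R8_1 K)

theorem rid_R5_3 : RId K P R5 3 :=
  ses_R5_R2_R6.rid_sub (rid_R2_3 K) (rid_R6_2 K)

/-- vertices [5], arrows [] -/
def R10 : PAct PA.op (Fin 1) where
  act := actT 42534038355721881529355541199391293439 1
  assoc := by decide +kernel
  vtx := vtxT 21
  vtx_idem := by decide +kernel
  unit := by decide +kernel

/-- vertices [1], arrows [] -/
def R11 : PAct PA.op (Fin 1) where
  act := actT 42495055564463663018800714582419570687 1
  assoc := by decide +kernel
  vtx := vtxT 22
  vtx_idem := by decide +kernel
  unit := by decide +kernel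

theorem ses_R10_R4_R11 : IsSES R10 R4 R11 (vecT 1 : Fin 1 → Fin 2) (vecT 0 : Fin 1 → Fin 2) where
  finj := by decide +kernel
  ginj := by decide +kernel
  disj := by decide +kernel
  cover := by decide +kernel
  hf := by decide +kernel
  hg := by decide +kernel

/-- vertices [0, 1, 2, 4, 5], arrows [(0, 3), (4, 3), (0, 2), (1, 0), (1, 4)] -/
def R12 : PAct PA.op (Fin 5) where
  act := actT 139111413974625104348446226932085177017872651363962794741641043262818750956495570507757743545505424503315551426491684603567914601469045932313543529906383331435944213391314570694047689605119 5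
  assoc := by decide +kernel
  vtx := vtxT 22405838
  vtx_idem := by decide +kernel
  unit := by decide +kernel

theorem ses_R11_R3_R12 : IsSES R11 R3 R12 (vecT 1 : Fin 1 → Fin 6) (vecT 5377088 : Fin 5 → Fin 6) where
  finj := by decide +kernel
  ginj := by decide +kernel
  disj := by decide +kernel
  cover := by decide +kernel
  hf := by decide +kernel
  hg := by decide +kernel

/-- vertices [2], arrows [] -/
def R13 : PAct PA.op (Fin 1) where
  act := actT 1329227995784915872903807060280344575 1
  assoc := by decide +kernel
  vtx := vtxT 24
  vtx_idem := by decide +kernel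
  unit := by decide +kernel

theorem ses_R13_R12_R9 : IsSES R13 R12 R9 (vecT 2 : Fin 1 → Fin 5) (vecT 134176 : Fin 4 → Fin 5) where
  finj := by decide +kernel
  ginj := by decide +kernel
  disj := by decide +kernel
  cover := by decide +kernel
  hf := by decide +kernel
  hg := by decide +kernel

/-- vertices [0, 1, 2], arrows [(1, 0), (2, 1)] -/
def R14 : PAct PA.op (Fin 3) where
  act := actT 7212521053510104511633646497657015545851702090303227431523851226334003674061010263512071698735143916305330995199 3
  assoc := by decide +kernel
  vtx := vtxT 25294
  vtx_idem := by decide +kernel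
  unit := by decide +kernel

theorem ses_R13_R7_R14 : IsSES R13 R7 R14 (vecT 2 : Fin 1 → Fin 4) (vecT 3104 : Fin 3 → Fin 4) where
  finj := by decide +kernel
  ginj := by decide +kernel
  disj := by decide +kernel
  cover := by decide +kernel
  hf := by decide +kernel
  hg := by decide +kernel

/-- vertices [0, 3, 4], arrows [(2, 1), (0, 2)] -/
def R15 : PAct PA.op (Fin 3) where
  act := actT 76957043352332967211482500195592995713046365762576814882058164343776711578518323181389751418956056992911660744703 3
  assoc := by decide +kernel
  vtx := vtxT 11374
  vtx_idem := by decide +kernel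
  unit := by decide +kernel

theorem ses_R14_R1_R15 : IsSES R14 R1 R15 (vecT 3136 : Fin 3 → Fin 6) (vecT 5249 : Fin 3 → Fin 6) where
  finj := by decide +kernel
  ginj := by decide +kernel
  disj := by decide +kernel
  cover := by decide +kernel
  hf := by decide +kernel
  hg := by decide +kernel

theorem isinj_R15 : IsInj R15 (vecT 5217 : Fin 3 → Fin 25) 1 where
  rel := by decide +kernel
  closed := by decide +kernel
  inj := by decide +kernel
  base := by decide +kernel

theorem rid_R14_1 : RId K P R14 1 :=
  ses_R14_R1_R15.rid_sub (isinj_R1.rid 1) (isinj_R15.rid 0)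

theorem rid_R13_2 : RId K P R13 2 :=
  ses_R13_R7_R14.rid_sub (isinj_R7.rid 2) (rid_R14_1 K)

theorem rid_R12_2 : RId K P R12 2 :=
  ses_R13_R12_R9.rid_mid (rid_R13_2 K) (isinj_R9.rid 2)

theorem rid_R11_3 : RId K P R11 3 :=
  ses_R11_R3_R12.rid_sub (isinj_R3.rid 3) (rid_R12_2 K)

theorem rid_R10_4 : RId K P R10 4 :=
  ses_R10_R4_R11.rid_sub (isinj_R4.rid 4) (rid_R11_3 K)

end Pool.Agent.T6.H92.Gendo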