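import Mathlib

/-!
Symmetric algebras, gendo-symmetric algebras and global dimension.
-/

namespace Pool.Agent.T6.H92.Gendo

open CategoryTheory

universe u

/-- A finite dimensional `K`-algebra `B` is symmetric: `B ≅ D(B) = Hom_K(B, K)` as `B`-bimodules.
The bimodule structure of `D(B)` is `(a · φ · b)(y) = φ(b y a)`. -/
def IsSymmetricAlg (K B : Type u) [Field K] [Ring B] [Algebra K B] : Prop :=
  Module.Finite K B ∧ ∃ e : B ≃ₗ[K] Module.Dual K B, ∀ a b x y : B, e (a * x * b) y = e x (b * y * a)

/-- `A` is gendo-symmetric: `A ≅ End_B(M)` for a finite dimensional symmetric algebra `B` and a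
finitely generated `B`-module `M` having the regular module `B` as a direct summand. -/
def IsGendoSymmetric (K A : Type u) [Field K] [Ring A] [Algebra K A] : Prop :=
  ∃ (B : Type u) (_ : Ring B) (_ : Algebra K B) (M : Type u) (_ : AddCommGroup M)
    (_ : Module K M) (_ : Module B M) (_ : IsScalarTower K B M),
    IsSymmetricAlg K B ∧ Module.Finite B M ∧
    (∃ (i : B →ₗ[B] M) (p : M →ₗ[B] B), ∀ b, p (i b) = b) ∧
    Nonempty (A ≃ₐ[K] Module.End B M)

/-- `gldim A = g`: every module has projective dimension at most `g`, and some finitely generated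
module has projective dimension `g`. -/
def HasGlobalDimension (A : Type u) [Ring A] (g : ℕ) : Prop :=
  (∀ X : ModuleCat.{u} A, projectiveDimension X ≤ g) ∧
    ∃ X : ModuleCat.{u} A, Module.Finite A X ∧ projectiveDimension X = g

end Pool.Agent.T6.H92.Gendo
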