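import Pool.Agent.T6.H92.Gendo.DataB
import Pool.Agent.T6.H92.Gendo.DataG

/-!
The counterexample: `A` has global dimension 4 and injective dimension at most 6 as a bimodule.
-/

set_option linter.unusedSectionVars false
set_option linter.unusedVariables false
set_option linter.style.haveILetI false

namespace Pool.Agent.T6.H92.Gendo

open CategoryTheory TensorProduct

universe u

theorem PAct.ext_act {S : Type} [Fintype S] [DecidableEq S] {P : PSG S} {X : Type}
    {M M' : PAct P X} (h : ∀ s x, M.act s x = M'.act s x) : M = M' := by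
  have h1 : M.act = M'.act := by funext s x; exact h s x
  have h2 : M.vtx = M'.vtx := by
    funext x
    have h3 := M.unit (M.vtx x) x (M.vtx_idem x)
    rw [if_pos rfl, h, M'.unit _ x (M.vtx_idem x)] at h3
    by_contra h4
    rw [if_neg h4] at h3
    simp at h3
  cases M
  cases M'
  simp only at h1 h2
  subst h1
  subst h2
  rfl

theorem simples_pd (K : Type u) [Field K] : ∀ e (he : PA.isIdem e = true),
    PDlt K (simpleAct PA e he dep dep_zero dep_add) 5 := by
  intro e he
  have h : ∀ e : Fin 25, PA.isIdem e = true →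
      (∀ s x, L15.act s x = if s = e then some x else none) ∨
      (∀ s x, L16.act s x = if s = e then some x else none) ∨
      (∀ s x, L4.act s x = if s = e then some x else none) ∨
      (∀ s x, L18.act s x = if s = e then some x else none) ∨
      (∀ s x, L20.act s x = if s = e then some x else none) ∨
      (∀ s x, L22.act s x = if s = e then some x else none) := by decide +kernel
  rcases h e he with h | h | h | h | h | h
  · rw [show simpleAct PA e he dep dep_zero dep_add = L15 from (PAct.ext_act h).symm]
    exact pd_L15_4 K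
  · rw [show simpleAct PA e he dep dep_zero dep_add = L16 from (PAct.ext_act h).symm]
    exact pd_L16_4 K
  · rw [show simpleAct PA e he dep dep_zero dep_add = L4 from (PAct.ext_act h).symm]
    exact pd_L4_4 K
  · rw [show simpleAct PA e he dep dep_zero dep_add = L18 from (PAct.ext_act h).symm]
    exact pd_L18_4 K
  · rw [show simpleAct PA e he dep dep_zero dep_add = L20 from (PAct.ext_act h).symm]
    exact pd_L20_4 K
  · rw [show simpleAct PA e he dep dep_zero dep_add = L22 from (PAct.ext_act h).symm]
    exact pd_L22_4 K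

theorem lower (K : Type u) [Field K] :
    ¬ HasProjectiveDimensionLT (ModuleCat.of (Alg K PA) (L22.V K)) 4 := by
  intro h0
  have h1 : HasProjectiveDimensionLT (ModuleCat.of (Alg K PA) (L16.V K)) 3 :=
    ses_L16_L12_L22.pd_sub (isproj_L12.pdlt K 2 K) h0
  have h2 : HasProjectiveDimensionLT (ModuleCat.of (Alg K PA) (L17.V K)) 2 :=
    ses_L17_L6_L16.pd_sub (isproj_L6.pdlt K 1 K) h1
  have h3 : HasProjectiveDimensionLT (ModuleCat.of (Alg K PA) (L4.V K)) 2 :=
    ses_L8_L17_L4.pd_quo' (isproj_L8.pdlt K 0 K) h2
  have h4 : HasProjectiveDimensionLT (ModuleCat.of (Alg K PA) (L2.V K)) 1 :=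
    ses_L2_L3_L4.pd_sub (isproj_L3.pdlt K 0 K) h3
  obtain ⟨s, y, hy, hno⟩ : ∃ s y, L1.act s y = some ((vecT 5248 : Fin 3 → Fin 6) 1) ∧
    ∀ x, L0.act s x ≠ some 1 := by decide +kernel
  exact ses_L0_L1_L2.not_projective K 1 s y hy hno h4

theorem gldim (K : Type u) [Field K] : HasGlobalDimension (Alg K PA) 4 := by
  have hall : ∀ X : ModuleCat.{u} (Alg K PA), projectiveDimension X ≤ (4 : ℕ) := by
    intro X
    rw [projectiveDimension_le_iff]
    exact pd_all dep dep_zero dep_add 8 dep_le 5 (simples_pd K) X
  refine ⟨hall, ModuleCat.of (Alg K PA) (L22.V K), ?_, ?_⟩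
  · haveI : Module.Finite K (L22.V K) := inferInstanceAs (Module.Finite K (Fin 1 → K))
    exact Module.Finite.of_restrictScalars_finite K (Alg K PA) (L22.V K)
  · refine le_antisymm (hall _) ?_
    rw [projectiveDimension_ge_iff]
    exact lower K

end Pool.Agent.T6.H92.Gendo
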