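import Pool.Agent.T6.H92.Gendo.Hom

/-!
Upper bound for the projective dimension of all modules from the simple ones.
-/

set_option linter.unusedSectionVars false
set_option linter.unusedVariables false
set_option linter.style.haveILetI false

namespace Pool.Agent.T6.H92.Gendo

open Finset CategoryTheory

universe u

variable {S : Type} [Fintype S] [DecidableEq S]

/-- The simple partial action at the idempotent `e`. -/
def simpleAct (P : PSG S) (e : S) (he : P.isIdem e = true)
    (d : S → ℕ) (hd0 : ∀ s, d s = 0 ↔ P.isIdem s = true)
    (hd : ∀ s t r, P.mul s t = some r → d s + d t ≤ d r) : PAct P (Fin 1) where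
  act s x := if s = e then some x else none
  assoc s t x := by
    have hee : P.mul e e = some e := by
      have h1 := P.hl (P.lft e) e (P.lft_idem e)
      rw [if_pos rfl] at h1
      have h2 := P.hr e (P.lft e) he
      rw [h1] at h2
      by_cases h3 : e = P.rgt (P.lft e)
      · rw [if_pos h3] at h2
        simp only [Option.some.injEq] at h2
        rw [← h2] at h1
        exact h1
      · rw [if_neg h3] at h2
        simp at h2
    by_cases h1 : s = e ∧ t = e
    · rw [h1.1, h1.2, hee]; simp
    · have h2 : (if t = e then some x else none).bind (fun x => if s = e then some x else none)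
          = (none : Option (Fin 1)) := by
        by_cases h3 : t = e
        · rw [if_pos h3]
          have h4 : s ≠ e := fun h => h1 ⟨h, h3⟩
          simp [h4]
        · rw [if_neg h3]; rfl
      rw [h2]
      cases h3 : P.mul s t with
      | none => rfl
      | some r =>
        simp only [Option.bind_some]
        rw [if_neg]
        intro hr
        have h4 := hd s t r h3
        rw [hr, (hd0 e).mpr he] at h4
        have hs : P.isIdem s = true := (hd0 s).mp (by omega)
        have ht : P.isIdem t = true := (hd0 t).mp (by omega)
        have h5 := P.hl s t hs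
        have h6 := P.hr t s ht
        rw [h3] at h5 h6
        split_ifs at h5 h6
        simp only [Option.some.injEq] at h5 h6
        exact h1 ⟨by rw [← h6, hr], by rw [← h5, hr]⟩
  vtx _ := e
  vtx_idem _ := he
  unit e' x _ := rfl

section

variable {K : Type u} [Field K] {P : PSG S}

variable (K P) in
/-- `n` is killed by all products of `k` radical basis elements. -/
def kills {N : Type u} [AddCommGroup N] [Module (Alg K P) N] : ℕ → N → Prop
  | 0, n => n = 0
  | k + 1, n => ∀ s, P.isIdem s = false → kills k (bs K P s • n)

variable {N : Type u} [AddCommGroup N] [Module (Alg K P) N]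

theorem kills_zero_elt (k : ℕ) : kills K P k (0 : N) := by
  induction k with
  | zero => rfl
  | succ k ih => intro s hs; rw [smul_zero]; exact ih

theorem kills_add {k : ℕ} {n m : N} (hn : kills K P k n) (hm : kills K P k m) :
    kills K P k (n + m) := by
  induction k generalizing n m with
  | zero =>
    have h1 : n = 0 := hn
    have h2 : m = 0 := hm
    change n + m = 0
    rw [h1, h2, add_zero]
  | succ k ih => intro s hs; rw [smul_add]; exact ih (hn s hs) (hm s hs)

variable (d : S → ℕ) (hd0 : ∀ s, d s = 0 ↔ P.isIdem s = true)
    (hd : ∀ s t r, P.mul s t = some r → d s + d t ≤ d r)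
include hd0 hd

theorem kills_smul_bs {k : ℕ} {n : N} (hn : kills K P k n) (s : S) :
    kills K P k (bs K P s • n) := by
  cases k with
  | zero =>
    have h1 : n = 0 := hn
    change bs K P s • n = 0
    rw [h1, smul_zero]
  | succ k =>
    intro t ht
    rw [smul_smul, bs_mul]
    cases h : P.mul t s with
    | none => simpa using kills_zero_elt k
    | some r =>
      refine hn r ?_
      have h1 := hd t s r h
      have h2 : d t ≠ 0 := fun h3 => by rw [(hd0 t).mp h3] at ht; simp at ht
      by_contra h3
      have h4 : P.isIdem r = true := by simpa using h3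
      rw [(hd0 r).mpr h4] at h1
      omega

theorem kills_smul_scalar {k : ℕ} {n : N} (hn : kills K P k n) (c : K) :
    kills K P k ((algebraMap K (Alg K P) c) • n) := by
  induction k generalizing n with
  | zero =>
    have h1 : n = 0 := hn
    change _ • n = 0
    rw [h1, smul_zero]
  | succ k ih =>
    intro t ht
    rw [smul_smul, ← Algebra.commutes, ← smul_smul]
    exact ih (hn t ht)

theorem kills_sum {ι : Type} (F : Finset ι) {k : ℕ} (f : ι → N) (h : ∀ i ∈ F, kills K P k (f i)) :
    kills K P k (∑ i ∈ F, f i) := by
  classical
  induction F using Finset.induction_on with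
  | empty => simpa using kills_zero_elt k
  | insert a F ha ih =>
    rw [Finset.sum_insert ha]
    exact kills_add (h a (Finset.mem_insert_self _ _))
      (ih fun i hi => h i (Finset.mem_insert_of_mem hi))

theorem smul_expand (a : Alg K P) (n : N) :
    a • n = ∑ s, (algebraMap K (Alg K P) (a s)) • (bs K P s • n) := by
  conv_lhs => rw [alg_eq_sum P K a]
  rw [Finset.sum_smul]
  refine Finset.sum_congr rfl fun s _ => ?_
  rw [Algebra.smul_def, mul_smul]

theorem kills_smul {k : ℕ} {n : N} (hn : kills K P k n) (a : Alg K P) :
    kills K P k (a • n) := by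
  rw [smul_expand d hd0 hd a n]
  exact kills_sum d hd0 hd _ _ fun s _ =>
    kills_smul_scalar d hd0 hd (kills_smul_bs d hd0 hd hn s) _

/-- every element of every module is killed by long products -/
theorem kills_all (D : ℕ) (hD : ∀ s, d s ≤ D) (n : N) : kills K P (D + 1) n := by
  have h1 : ∀ (k : ℕ) (s : S) (m : N), D + 1 ≤ d s + k → kills K P k (bs K P s • m) := by
    intro k
    induction k with
    | zero => intro s m h; have := hD s; omega
    | succ k ih =>
      intro s m h t ht
      rw [smul_smul, bs_mul]
      cases h2 : P.mul t s with
      | none => simpa using kills_zero_elt k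
      | some r =>
        have h3 := hd t s r h2
        have h4 : d t ≠ 0 := fun h3 => by rw [(hd0 t).mp h3] at ht; simp at ht
        exact ih r m (by omega)
  have h2 : n = (1 : Alg K P) • n := (one_smul _ _).symm
  rw [h2, smul_expand d hd0 hd 1 n]
  exact kills_sum d hd0 hd _ _ fun s _ =>
    kills_smul_scalar d hd0 hd (h1 (D + 1) s n (by omega)) _

end

theorem idem_lft (P : PSG S) {e : S} (he : P.isIdem e = true) : P.lft e = e ∧ P.rgt e = e := by
  have h1 := P.hl (P.lft e) e (P.lft_idem e)
  rw [if_pos rfl] at h1
  have h2 := P.hr e (P.lft e) he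
  rw [h1] at h2
  by_cases h3 : e = P.rgt (P.lft e)
  · rw [if_pos h3] at h2
    simp only [Option.some.injEq] at h2
    exact ⟨h2.symm, by rw [← h2] at h3; exact h3.symm⟩
  · rw [if_neg h3] at h2
    simp at h2

theorem pd_of_submodule {R : Type u} [Ring R] {N : Type u} [AddCommGroup N] [Module R N]
    (N' : Submodule R N) (m : ℕ) (h₁ : HasProjectiveDimensionLT (ModuleCat.of R N') m)
    (h₂ : HasProjectiveDimensionLT (ModuleCat.of R (N ⧸ N')) m) :
    HasProjectiveDimensionLT (ModuleCat.of R N) m :=
  (ModuleCat.shortComplex_shortExact
    (ModuleCat.shortComplexOfCompEqZero N'.subtype N'.mkQ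
      (LinearMap.exact_subtype_mkQ N').linearMap_comp_eq_zero)
    (LinearMap.exact_subtype_mkQ N') N'.subtype_injective
    N'.mkQ_surjective).hasProjectiveDimensionLT_X₂ m h₁ h₂

section

variable {K : Type u} [Field K] {P : PSG S}

/-- elements killed by all basis elements but `e` -/
def vertexSub (K : Type u) [Field K] (P : PSG S) (N : Type u) [AddCommGroup N]
    [Module (Alg K P) N] (e : S) (he : P.isIdem e = true) :
    Submodule (Alg K P) N where
  carrier := {n | ∀ s, s ≠ e → bs K P s • n = 0}
  add_mem' := by
    intro a b ha hb s hs
    rw [smul_add, ha s hs, hb s hs, add_zero]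
  zero_mem' := by intro s hs; rw [smul_zero]
  smul_mem' := by
    intro a n hn s hs
    conv_lhs => rw [alg_eq_sum P K a]
    rw [smul_smul, Finset.mul_sum, Finset.sum_smul]
    apply Finset.sum_eq_zero
    intro t _
    rw [mul_smul_comm, Algebra.smul_def, mul_smul]
    by_cases ht : t = e
    · subst ht
      rw [bs_mul, P.hr t s he]
      by_cases h1 : t = P.rgt s
      · rw [if_pos h1]
        simp only
        rw [hn s hs, smul_zero]
      · rw [if_neg h1]
        simp
    · rw [mul_smul, hn t ht, smul_zero, smul_zero]

theorem simple_type (d : S → ℕ) (hd0 : ∀ s, d s = 0 ↔ P.isIdem s = true)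
    (hd : ∀ s t r, P.mul s t = some r → d s + d t ≤ d r) (m : ℕ)
    (hs : ∀ e (he : P.isIdem e = true), PDlt K (simpleAct P e he d hd0 hd) m)
    (N : Type u) [AddCommGroup N] [Module (Alg K P) N] (e : S) (he : P.isIdem e = true)
    (hN : ∀ n : N, ∀ s, s ≠ e → bs K P s • n = 0) :
    HasProjectiveDimensionLT (ModuleCat.of (Alg K P) N) m := by
  letI : Module K N := Module.compHom N (algebraMap K (Alg K P))
  have hexp : ∀ (a : Alg K P) (n : N), a • n = (algebraMap K (Alg K P) (a e)) • (bs K P e • n) := by
    intro a n
    rw [smul_expand d hd0 hd a n, Finset.sum_eq_single e]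
    · intro b _ hb
      rw [hN n b hb, smul_zero]
    · simp
  have hone : ∀ n : N, bs K P e • n = n := by
    intro n
    have h1 := hexp 1 n
    have h2 : ((1 : Alg K P) e : K) = 1 := by
      change (if P.isIdem e = true then (1 : K) else 0) = 1
      rw [if_pos he]
    rw [h2, map_one, one_smul, one_smul] at h1
    exact h1.symm
  let E : N ≃ₗ[Alg K P] (simpleAct P e he d hd0 hd).V N :=
    { toFun := fun n _ => n
      invFun := fun v => v 0
      left_inv := fun _ => rfl
      right_inv := fun v => by
        funext i
        change v 0 = v i
        rw [Subsingleton.elim i 0]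
      map_add' := fun _ _ => rfl
      map_smul' := by
        intro a n
        funext i
        change a • n = (a • (show (simpleAct P e he d hd0 hd).V N from fun _ => n)) i
        rw [smul_apply, Finset.sum_eq_single e]
        · rw [Finset.univ_unique, Finset.sum_singleton, hexp, hone]
          change _ = if (if e = e then some default else none) = some i then _ else _
          rw [if_pos rfl, if_pos (by rw [Subsingleton.elim default i])]
          rfl
        · intro b _ hb
          apply Finset.sum_eq_zero
          intro x _
          change (if (if b = e then some x else none) = some i then _ else _) = _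
          rw [if_neg hb]
          simp
        · simp }
  have h := hs e he N
  exact hasProjectiveDimensionLT_of_iso (E.toModuleIso).symm m

theorem semisimple_type (d : S → ℕ) (hd0 : ∀ s, d s = 0 ↔ P.isIdem s = true)
    (hd : ∀ s t r, P.mul s t = some r → d s + d t ≤ d r) (m : ℕ)
    (hs : ∀ e (he : P.isIdem e = true), PDlt K (simpleAct P e he d hd0 hd) m)
    (L : Finset S) : ∀ (N : Type u) [AddCommGroup N] [Module (Alg K P) N]
    (_ : ∀ n : N, kills K P 1 n)
    (_ : ∀ n : N, ∀ e, P.isIdem e = true → e ∉ L → bs K P e • n = 0),
    HasProjectiveDimensionLT (ModuleCat.of (Alg K P) N) m := by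
  induction L using Finset.induction_on with
  | empty =>
    intro N _ _ h1 h2
    have h3 : Subsingleton N := by
      refine ⟨fun a b => ?_⟩
      have h4 : ∀ n : N, n = 0 := by
        intro n
        have h5 : n = (1 : Alg K P) • n := (one_smul _ _).symm
        rw [h5, smul_expand d hd0 hd 1 n]
        apply Finset.sum_eq_zero
        intro s _
        by_cases h6 : P.isIdem s = true
        · rw [h2 n s h6 (by simp), smul_zero]
        · have h7 : bs K P s • n = 0 := h1 n s (by simpa using h6)
          rw [h7, smul_zero]
      rw [h4 a, h4 b]
    have h4 : Limits.IsZero (ModuleCat.of (Alg K P) N) := ModuleCat.isZero_of_subsingleton _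
    have h5 := h4.hasProjectiveDimensionLT_zero
    exact hasProjectiveDimensionLT_of_ge _ 0 m (by omega)
  | insert e L he ih =>
    intro N _ _ h1 h2
    by_cases hid : P.isIdem e = true
    · let N' := vertexSub K P N e hid
      refine pd_of_submodule N' m ?_ ?_
      · refine simple_type d hd0 hd m hs N' e hid ?_
        intro n s hs'
        have := n.2 s hs'
        exact Subtype.ext this
      · refine ih (N ⧸ N') ?_ ?_
        · intro n s hs'
          obtain ⟨n, rfl⟩ := N'.mkQ_surjective n
          change bs K P s • N'.mkQ n = 0
          have h3 : bs K P s • n = 0 := h1 n s hs'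
          rw [← map_smul, h3, map_zero]
        · intro n e' he' hL
          obtain ⟨n, rfl⟩ := N'.mkQ_surjective n
          rw [← map_smul]
          by_cases h4 : e' = e
          · subst h4
            rw [Submodule.mkQ_apply, Submodule.Quotient.mk_eq_zero]
            intro s hs'
            rw [smul_smul, bs_mul, P.hr e' s hid]
            by_cases h5 : e' = P.rgt s
            · rw [if_pos h5]
              simp only
              have h6 : P.isIdem s = false := by
                by_contra h7
                have h8 : P.isIdem s = true := by simpa using h7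
                rw [(idem_lft P h8).2] at h5
                exact hs' h5.symm
              exact h1 n s h6
            · rw [if_neg h5]
              simp
          · rw [h2 n e' he' (by simp [h4, hL]), map_zero]
    · refine ih N h1 ?_
      intro n e' he' hL
      refine h2 n e' he' ?_
      simp only [Finset.mem_insert, not_or]
      exact ⟨fun h => hid (h ▸ he'), hL⟩

/-- elements killed by the radical -/
def socSub (K : Type u) [Field K] (P : PSG S) (d : S → ℕ)
    (hd0 : ∀ s, d s = 0 ↔ P.isIdem s = true)
    (hd : ∀ s t r, P.mul s t = some r → d s + d t ≤ d r) (N : Type u) [AddCommGroup N]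
    [Module (Alg K P) N] : Submodule (Alg K P) N where
  carrier := {n | kills K P 1 n}
  add_mem' := fun ha hb => kills_add ha hb
  zero_mem' := kills_zero_elt 1
  smul_mem' := fun a n hn => kills_smul d hd0 hd hn a

theorem kills_mk (d : S → ℕ)
    (hd0 : ∀ s, d s = 0 ↔ P.isIdem s = true)
    (hd : ∀ s t r, P.mul s t = some r → d s + d t ≤ d r) {N : Type u} [AddCommGroup N]
    [Module (Alg K P) N] (k : ℕ) (n : N) (h : kills K P (k + 1) n) :
    kills K P k ((socSub K P d hd0 hd N).mkQ n) := by
  induction k generalizing n with
  | zero =>
    change (socSub K P d hd0 hd N).mkQ n = 0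
    rw [Submodule.mkQ_apply, Submodule.Quotient.mk_eq_zero]
    exact h
  | succ k ih =>
    intro s hs
    rw [← map_smul]
    exact ih _ (h s hs)

theorem pd_all (d : S → ℕ) (hd0 : ∀ s, d s = 0 ↔ P.isIdem s = true)
    (hd : ∀ s t r, P.mul s t = some r → d s + d t ≤ d r) (D : ℕ) (hD : ∀ s, d s ≤ D) (m : ℕ)
    (hs : ∀ e (he : P.isIdem e = true), PDlt K (simpleAct P e he d hd0 hd) m)
    (N : Type u) [AddCommGroup N] [Module (Alg K P) N] :
    HasProjectiveDimensionLT (ModuleCat.of (Alg K P) N) m := by
  have main : ∀ (k : ℕ) (N : Type u) [AddCommGroup N] [Module (Alg K P) N],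
      (∀ n : N, kills K P (k + 1) n) → HasProjectiveDimensionLT (ModuleCat.of (Alg K P) N) m := by
    intro k
    induction k with
    | zero =>
      intro N _ _ h
      exact semisimple_type d hd0 hd m hs Finset.univ N h (fun n e _ he => absurd (Finset.mem_univ e) he)
    | succ k ih =>
      intro N _ _ h
      refine pd_of_submodule (socSub K P d hd0 hd N) m ?_ ?_
      · refine semisimple_type d hd0 hd m hs Finset.univ _ ?_
          (fun n e _ he => absurd (Finset.mem_univ e) he)
        intro n s hs'
        have h1 : kills K P 1 (n : N) := n.2
        exact Subtype.ext (h1 s hs')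
      · refine ih _ ?_
        intro n
        obtain ⟨n, rfl⟩ := (socSub K P d hd0 hd N).mkQ_surjective n
        exact kills_mk d hd0 hd (k + 1) n (h n)
  exact main D N (kills_all d hd0 hd D hD)

end

end Pool.Agent.T6.H92.Gendo
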