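import Pool.Agent.T6.H92.Gendo.Basic

/-!
Short exact sequences of partial actions, injective and projective partial actions, and the
resulting statements on homological dimensions.
-/

set_option linter.unusedSectionVars false
set_option linter.unusedVariables false
set_option linter.style.haveILetI false

namespace Pool.Agent.T6.H92.Gendo

open Finset CategoryTheory

universe u

variable {S : Type} [Fintype S] [DecidableEq S] {P : PSG S}

/-! ### basis elements -/

section basis

variable (K : Type u) [Field K] (P)

/-- basis element of the algebra -/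
def bs (K : Type u) [Field K] {S : Type} [Fintype S] [DecidableEq S] (P : PSG S) (s : S) :
    Alg K P := Pi.single s (1 : K)

theorem alg_eq_sum (a : Alg K P) : a = ∑ s, (a s : K) • bs K P s := by
  have : ∀ t, (∑ s, (a s : K) • bs K P s) t = a t := by
    intro t
    have h1 : (∑ s, (a s : K) • bs K P s) t = ∑ s, ((a s : K) • bs K P s) t := by
      exact Finset.sum_apply (M := fun _ => K) t Finset.univ (fun s => (a s : K) • bs K P s)
    rw [h1, Finset.sum_eq_single t]
    · change (a t : K) • (Pi.single t (1:K) : S → K) t = a t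
      simp
    · intro b _ hb
      change (a b : K) • (Pi.single b (1:K) : S → K) t = 0
      simp [Pi.single_eq_of_ne' hb]
    · simp
  funext t
  exact (this t).symm

variable {X : Type} [Fintype X] [DecidableEq X] (M : PAct P X)
  (W : Type u) [AddCommGroup W] [Module K W]

variable {P W}

theorem smul_apply (a : Alg K P) (v : M.V W) (y : X) :
    (a • v) y = ∑ s, ∑ x, if M.act s x = some y then (a s : K) • v x else 0 := rfl

theorem bs_smul_apply (s : S) (v : M.V W) (y : X) :
    (bs K P s • v) y = ∑ x, if M.act s x = some y then v x else 0 := by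
  rw [smul_apply, Finset.sum_eq_single s]
  · refine Finset.sum_congr rfl fun x _ => ?_
    change (if M.act s x = some y then (Pi.single s (1:K) : S → K) s • v x else 0) = _
    simp
  · intro b _ hb
    apply Finset.sum_eq_zero
    intro x _
    change (if M.act b x = some y then (Pi.single s (1:K) : S → K) b • v x else 0) = _
    simp [Pi.single_eq_of_ne hb]
  · simp

theorem bs_mul (s t : S) :
    bs K P s * bs K P t = (match P.mul s t with | some r => bs K P r | none => 0) := by
  have h : ∀ y, (bs K P s * bs K P t) y = if P.mul s t = some y then 1 else 0 := by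
    intro y
    have h0 : bs K P s * bs K P t
        = (show Alg K P from (bs K P s • (show (P.self).V K from bs K P t))) := rfl
    have h1 := bs_smul_apply K P.self (W := K) s (bs K P t) y
    have h2 : (bs K P s * bs K P t) y = ∑ x, if P.self.act s x = some y then
        (bs K P t) x else 0 := h1
    rw [h2, Finset.sum_eq_single t]
    · change (if P.mul s t = some y then (Pi.single t (1:K) : S → K) t else 0) = _
      simp
    · intro b _ hb
      change (if P.mul s b = some y then (Pi.single t (1:K) : S → K) b else 0) = _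
      simp [Pi.single_eq_of_ne hb]
    · simp
  funext y
  rw [h y]
  cases hm : P.mul s t with
  | none => simp; rfl
  | some r =>
    simp only [Option.some.injEq]
    change _ = (Pi.single r (1:K) : S → K) y
    by_cases hry : r = y
    · subst hry; simp
    · rw [if_neg hry, Pi.single_eq_of_ne (Ne.symm hry)]

end basis

/-! ### short exact sequences -/

structure IsSES {X₁ X₂ X₃ : Type} (M₁ : PAct P X₁) (M₂ : PAct P X₂) (M₃ : PAct P X₃)
    (f : X₁ → X₂) (g : X₃ → X₂) : Prop where
  finj : Function.Injective f
  ginj : Function.Injective g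
  disj : ∀ x z, f x ≠ g z
  cover : ∀ y, (∃ x, f x = y) ∨ (∃ z, g z = y)
  hf : ∀ s x, M₂.act s (f x) = (M₁.act s x).map f
  hg : ∀ s z z', M₃.act s z = some z' ↔ M₂.act s (g z) = some (g z')

section ses

variable {K : Type u} [Field K]
variable {X₁ : Type} [Fintype X₁] [DecidableEq X₁] {X₂ : Type} [Fintype X₂] [DecidableEq X₂]
  {X₃ : Type} [Fintype X₃] [DecidableEq X₃]
  {M₁ : PAct P X₁} {M₂ : PAct P X₂} {M₃ : PAct P X₃} {f : X₁ → X₂} {g : X₃ → X₂}
  (W : Type u) [AddCommGroup W] [Module K W]

theorem IsSES.sum_split (h : IsSES M₁ M₂ M₃ f g) (φ : X₂ → W) :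
    ∑ y, φ y = ∑ x, φ (f x) + ∑ z, φ (g z) := by
  have hb : Function.Bijective (Sum.elim f g) := by
    constructor
    · rintro (a | a) (b | b) hab
      · exact congrArg _ (h.finj hab)
      · exact absurd hab (h.disj _ _)
      · exact absurd hab.symm (h.disj _ _)
      · exact congrArg _ (h.ginj hab)
    · intro y
      rcases h.cover y with ⟨x, hx⟩ | ⟨z, hz⟩
      · exact ⟨Sum.inl x, hx⟩
      · exact ⟨Sum.inr z, hz⟩
  rw [← Fintype.sum_bijective _ hb (fun i => φ (Sum.elim f g i)) φ (fun _ => rfl)]
  rw [Fintype.sum_sum_type]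
  rfl

/-- extension by zero -/
def extFn (f : X₁ → X₂) (v : X₁ → W) : X₂ → W := fun y => ∑ x, if f x = y then v x else 0

theorem extFn_f (hf : Function.Injective f) (v : X₁ → W) (x : X₁) : extFn W f v (f x) = v x := by
  simp only [extFn]
  rw [Finset.sum_eq_single x]
  · simp
  · intro b _ hb; rw [if_neg]; intro h; exact hb (hf h)
  · simp

theorem extFn_of_not (v : X₁ → W) (y : X₂) (h : ∀ x, f x ≠ y) : extFn W f v y = 0 := by
  simp only [extFn]
  exact Finset.sum_eq_zero fun x _ => if_neg (h x)

variable (K)

/-- the inclusion -/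
def IsSES.F (h : IsSES M₁ M₂ M₃ f g) : M₁.V W →ₗ[Alg K P] M₂.V W where
  toFun v := extFn W f v
  map_add' v w := by
    funext y
    change extFn W f (v + w) y = extFn W f v y + extFn W f w y
    simp only [extFn, ← Finset.sum_add_distrib]
    refine Finset.sum_congr rfl fun x _ => ?_
    split_ifs
    · rfl
    · simp
  map_smul' a v := by
    funext y
    change extFn W f (a • v) y = (a • (show M₂.V W from extFn W f v)) y
    rw [smul_apply]
    have hsum : ∀ s, (∑ y', if M₂.act s y' = some y then (a s : K) • extFn W f v y' else 0)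
        = ∑ x, if (M₁.act s x).map f = some y then (a s : K) • v x else 0 := by
      intro s
      rw [h.sum_split W]
      have h2 : ∑ z, (if M₂.act s (g z) = some y then (a s : K) • extFn W f v (g z) else 0) = 0 := by
        apply Finset.sum_eq_zero
        intro z _
        rw [extFn_of_not W v (g z) (fun x => h.disj x z)]
        simp
      rw [h2, add_zero]
      refine Finset.sum_congr rfl fun x _ => ?_
      have e := extFn_f W h.finj (show X₁ → W from v) x
      simp only [h.hf]
      split_ifs
      · exact congrArg _ e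
      · rfl
    simp only [hsum]
    rcases h.cover y with ⟨x₀, rfl⟩ | ⟨z, rfl⟩
    · refine (extFn_f W h.finj (show X₁ → W from a • v) x₀).trans ?_
      change (a • v) x₀ = _
      rw [smul_apply]
      refine Finset.sum_congr rfl fun s _ => Finset.sum_congr rfl fun x _ => ?_
      congr 1
      apply propext
      constructor
      · intro h1; rw [h1]; rfl
      · intro h1
        cases h3 : M₁.act s x with
        | none => rw [h3] at h1; simp at h1
        | some w =>
          rw [h3] at h1
          simp only [Option.map_some, Option.some.injEq] at h1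
          rw [h.finj h1]
    · refine (extFn_of_not W (show X₁ → W from a • v) (g z) (fun x => h.disj x z)).trans ?_
      symm
      apply Finset.sum_eq_zero
      intro s _
      apply Finset.sum_eq_zero
      intro x _
      rw [if_neg]
      intro h1
      cases h3 : M₁.act s x with
      | none => rw [h3] at h1; simp at h1
      | some w =>
        rw [h3] at h1
        simp only [Option.map_some, Option.some.injEq] at h1
        exact h.disj _ _ h1

/-- the restriction -/
def IsSES.G (h : IsSES M₁ M₂ M₃ f g) : M₂.V W →ₗ[Alg K P] M₃.V W where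
  toFun v := fun z => v (g z)
  map_add' v w := rfl
  map_smul' a v := by
    funext z
    change (a • v) (g z) = (a • (show M₃.V W from fun z => v (g z))) z
    rw [smul_apply, smul_apply]
    refine Finset.sum_congr rfl fun s _ => ?_
    rw [h.sum_split W]
    have h2 : ∑ x, (if M₂.act s (f x) = some (g z) then (a s : K) • v (f x) else 0) = 0 := by
      apply Finset.sum_eq_zero
      intro x _
      rw [if_neg]
      intro h1
      rw [h.hf] at h1
      cases h3 : M₁.act s x with
      | none => rw [h3] at h1; simp at h1
      | some w =>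
        rw [h3] at h1
        simp only [Option.map_some, Option.some.injEq] at h1
        exact h.disj _ _ h1
    rw [h2, zero_add]
    refine Finset.sum_congr rfl fun z' _ => ?_
    congr 1
    exact propext (h.hg s z' z).symm

theorem IsSES.F_injective (h : IsSES M₁ M₂ M₃ f g) : Function.Injective (h.F K W) := by
  intro v w hvw
  funext x
  calc v x = extFn W f v (f x) := (extFn_f W h.finj v x).symm
    _ = extFn W f w (f x) := congrFun hvw (f x)
    _ = w x := extFn_f W h.finj w x

theorem IsSES.G_surjective (h : IsSES M₁ M₂ M₃ f g) : Function.Surjective (h.G K W) := by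
  intro v
  refine ⟨extFn W g v, ?_⟩
  funext z
  exact extFn_f W h.ginj v z

theorem IsSES.exact (h : IsSES M₁ M₂ M₃ f g) : Function.Exact (h.F K W) (h.G K W) := by
  intro v
  constructor
  · intro hv
    refine ⟨fun x => v (f x), ?_⟩
    funext y
    change extFn W f (fun x => v (f x)) y = v y
    rcases h.cover y with ⟨x₀, rfl⟩ | ⟨z, rfl⟩
    · rw [extFn_f W h.finj]
    · rw [extFn_of_not W _ (g z) (fun x => h.disj x z)]
      exact (congrFun hv z).symm
  · rintro ⟨w, rfl⟩
    funext z
    exact extFn_of_not W w (g z) (fun x => h.disj x z)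

theorem IsSES.shortExact (h : IsSES M₁ M₂ M₃ f g) :
    (ModuleCat.shortComplexOfCompEqZero (h.F K W) (h.G K W)
      (h.exact K W).linearMap_comp_eq_zero).ShortExact :=
  ModuleCat.shortComplex_shortExact _ (h.exact K W) (h.F_injective K W) (h.G_surjective K W)

end ses

/-! ### dimensions -/

section dims

variable (K : Type u) [Field K]
variable {X : Type} [Fintype X] [DecidableEq X]

/-- injective dimension less than `n` of the module of a partial action -/
def IDlt (M : PAct P X) (n : ℕ) : Prop :=
  HasInjectiveDimensionLT (ModuleCat.of (Alg K P) (M.V K)) n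

/-- projective dimension less than `n`, for all coefficient spaces. -/
def PDlt (M : PAct P X) (n : ℕ) : Prop :=
  ∀ (W : Type u) [AddCommGroup W] [Module K W],
    HasProjectiveDimensionLT (ModuleCat.of (Alg K P) (M.V W)) n

variable {K}

theorem IDlt.mono {M : PAct P X} {n m : ℕ} (h : IDlt K M n) (hnm : n ≤ m) : IDlt K M m := by
  have := h
  unfold IDlt at *
  exact hasInjectiveDimensionLT_of_ge _ n m hnm

theorem PDlt.mono {M : PAct P X} {n m : ℕ} (h : PDlt K M n) (hnm : n ≤ m) : PDlt K M m := by
  intro W _ _
  have := h W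
  exact hasProjectiveDimensionLT_of_ge _ n m hnm

variable {X₁ : Type} [Fintype X₁] [DecidableEq X₁] {X₂ : Type} [Fintype X₂] [DecidableEq X₂]
  {X₃ : Type} [Fintype X₃] [DecidableEq X₃]
  {M₁ : PAct P X₁} {M₂ : PAct P X₂} {M₃ : PAct P X₃} {f : X₁ → X₂} {g : X₃ → X₂}

theorem IsSES.id_mid (h : IsSES M₁ M₂ M₃ f g) {n : ℕ} (h₁ : IDlt K M₁ n) (h₃ : IDlt K M₃ n) :
    IDlt K M₂ n :=
  (h.shortExact K K).hasInjectiveDimensionLT_X₂ n h₁ h₃

theorem IsSES.id_sub (h : IsSES M₁ M₂ M₃ f g) {n : ℕ} (h₂ : IDlt K M₂ (n + 1))
    (h₃ : IDlt K M₃ n) : IDlt K M₁ (n + 1) :=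
  (h.shortExact K K).hasInjectiveDimensionLT_X₁ n h₃ h₂

theorem IsSES.pd_mid (h : IsSES M₁ M₂ M₃ f g) {n : ℕ} (h₁ : PDlt K M₁ n) (h₃ : PDlt K M₃ n) :
    PDlt K M₂ n := fun W _ _ =>
  (h.shortExact K W).hasProjectiveDimensionLT_X₂ n (h₁ W) (h₃ W)

theorem IsSES.pd_quo (h : IsSES M₁ M₂ M₃ f g) {n : ℕ} (h₁ : PDlt K M₁ n)
    (h₂ : PDlt K M₂ (n + 1)) : PDlt K M₃ (n + 1) := fun W _ _ =>
  (h.shortExact K W).hasProjectiveDimensionLT_X₃ n (h₁ W) (h₂ W)

theorem IsSES.pd_sub (h : IsSES M₁ M₂ M₃ f g) {n : ℕ}
    (h₂ : HasProjectiveDimensionLT (ModuleCat.of (Alg K P) (M₂.V K)) n)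
    (h₃ : HasProjectiveDimensionLT (ModuleCat.of (Alg K P) (M₃.V K)) (n + 1)) :
    HasProjectiveDimensionLT (ModuleCat.of (Alg K P) (M₁.V K)) n :=
  (h.shortExact K K).hasProjectiveDimensionLT_X₁ n h₂ h₃

theorem IsSES.pd_quo' (h : IsSES M₁ M₂ M₃ f g) {n : ℕ}
    (h₁ : HasProjectiveDimensionLT (ModuleCat.of (Alg K P) (M₁.V K)) n)
    (h₂ : HasProjectiveDimensionLT (ModuleCat.of (Alg K P) (M₂.V K)) (n + 1)) :
    HasProjectiveDimensionLT (ModuleCat.of (Alg K P) (M₃.V K)) (n + 1) :=
  (h.shortExact K K).hasProjectiveDimensionLT_X₃ n h₁ h₂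

end dims

/-! ### injective and projective partial actions -/

structure IsInj {X : Type} (M : PAct P X) (σ : X → S) (x₀ : X) : Prop where
  rel : ∀ t l k, M.act t l = some k ↔ P.mul (σ k) t = some (σ l)
  closed : ∀ k t s, P.mul (σ k) t = some s → ∃ l, σ l = s
  inj : Function.Injective σ
  base : ∀ k, P.mul (σ x₀) (σ k) = some (σ k)

structure IsProj {X : Type} (M : PAct P X) (τ : X → S) (x₀ : X) : Prop where
  rel : ∀ t l k, M.act t l = some k ↔ P.mul t (τ l) = some (τ k)
  closed : ∀ l t s, P.mul t (τ l) = some s → ∃ k, τ k = s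
  inj : Function.Injective τ
  base : ∀ k, P.mul (τ k) (τ x₀) = some (τ k)

section injproj

variable (K : Type u) [Field K]
variable {X : Type} [Fintype X] [DecidableEq X] {M : PAct P X}

theorem IsInj.injective {σ : X → S} {x₀ : X} (h : IsInj M σ x₀) :
    Module.Injective (Alg K P) (M.V K) := by
  constructor
  intro N N' _ _ _ _ i hi hh
  letI : Module K N := Module.compHom N (algebraMap K (Alg K P))
  letI : Module K N' := Module.compHom N' (algebraMap K (Alg K P))
  haveI : IsScalarTower K (Alg K P) N := ⟨fun c a n => by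
    change (c • a) • n = (algebraMap K (Alg K P) c) • a • n
    rw [Algebra.smul_def, mul_smul]⟩
  haveI : IsScalarTower K (Alg K P) N' := ⟨fun c a n => by
    change (c • a) • n = (algebraMap K (Alg K P) c) • a • n
    rw [Algebra.smul_def, mul_smul]⟩
  -- the functional
  let ev : M.V K →ₗ[K] K :=
    { toFun := fun v => v x₀, map_add' := fun _ _ => rfl, map_smul' := fun _ _ => rfl }
  let φ : N →ₗ[K] K := ev.comp (hh.restrictScalars K)
  obtain ⟨ρ, hρ⟩ := LinearMap.exists_leftInverse_of_injective (i.restrictScalars K)
    (LinearMap.ker_eq_bot.mpr hi)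
  let φ' : N' →ₗ[K] K := φ.comp ρ
  have hφ' : ∀ n, φ' (i n) = φ n := by
    intro n
    have := LinearMap.congr_fun hρ n
    change ρ (i n) = n at this
    change φ (ρ (i n)) = φ n
    rw [this]
  have key : ∀ (t : S) (k : X) (n : N'),
      φ' ((bs K P (σ k) * bs K P t) • n)
        = ∑ l, if M.act t l = some k then φ' (bs K P (σ l) • n) else 0 := by
    intro t k n
    simp only [h.rel]
    rw [bs_mul]
    cases hm : P.mul (σ k) t with
    | none => simp
    | some s =>
      obtain ⟨l₀, rfl⟩ := h.closed k t s hm
      rw [Finset.sum_eq_single l₀]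
      · simp
      · intro b _ hb
        rw [if_neg]
        intro h1
        simp only [Option.some.injEq] at h1
        exact hb (h.inj h1.symm)
      · simp
  refine ⟨{ toFun := fun n => fun k => φ' (bs K P (σ k) • n), map_add' := ?_, map_smul' := ?_ }, ?_⟩
  · intro n n'
    funext k
    change φ' (bs K P (σ k) • (n + n')) = φ' (bs K P (σ k) • n) + φ' (bs K P (σ k) • n')
    rw [smul_add, map_add]
  · intro a n
    funext k
    change φ' (bs K P (σ k) • a • n) = (a • (show M.V K from fun k => φ' (bs K P (σ k) • n))) k
    rw [smul_apply]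
    conv_lhs => rw [alg_eq_sum P K a]
    rw [Finset.sum_smul, Finset.smul_sum, map_sum]
    refine Finset.sum_congr rfl fun s _ => ?_
    have h3 : bs K P (σ k) • ((a s : K) • bs K P s) • n
        = (a s : K) • ((bs K P (σ k) * bs K P s) • n) := by
      rw [smul_smul, mul_smul_comm, smul_assoc]
    rw [h3, map_smul, key s k n, Finset.smul_sum]
    refine Finset.sum_congr rfl fun l _ => ?_
    split_ifs <;> simp
  · intro n
    funext k
    change φ' (bs K P (σ k) • i n) = hh n k
    rw [← map_smul, hφ']
    change (hh (bs K P (σ k) • n)) x₀ = hh n k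
    rw [map_smul, bs_smul_apply]
    rw [Finset.sum_eq_single k]
    · rw [if_pos]
      rw [h.rel, h.base]
    · intro b _ hb
      rw [if_neg]
      intro h1
      rw [h.rel, h.base] at h1
      simp only [Option.some.injEq] at h1
      exact hb (h.inj h1).symm
    · simp

theorem IsInj.idlt {σ : X → S} {x₀ : X} (h : IsInj M σ x₀) (n : ℕ) : IDlt K M (n + 1) := by
  haveI := h.injective K
  haveI : CategoryTheory.Injective (ModuleCat.of (Alg K P) (M.V K)) :=
    Module.injective_object_of_injective_module _ _
  have h1 : HasInjectiveDimensionLT (ModuleCat.of (Alg K P) (M.V K)) 1 := inferInstance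
  exact IDlt.mono (n := 1) h1 (by omega)

theorem IsProj.projective {τ : X → S} {x₀ : X} (h : IsProj M τ x₀)
    (W : Type u) [AddCommGroup W] [Module K W] :
    Module.Projective (Alg K P) (M.V W) := by
  refine Module.Projective.of_lifting_property ?_
  intro N N' _ _ _ _ p hh hp
  letI : Module K N := Module.compHom N (algebraMap K (Alg K P))
  letI : Module K N' := Module.compHom N' (algebraMap K (Alg K P))
  haveI : IsScalarTower K (Alg K P) N := ⟨fun c a n => by
    change (c • a) • n = (algebraMap K (Alg K P) c) • a • n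
    rw [Algebra.smul_def, mul_smul]⟩
  haveI : IsScalarTower K (Alg K P) N' := ⟨fun c a n => by
    change (c • a) • n = (algebraMap K (Alg K P) c) • a • n
    rw [Algebra.smul_def, mul_smul]⟩
  -- the generators
  let gen : X → W →ₗ[K] M.V W := fun x => LinearMap.single K (fun _ : X => W) x
  have hgen : ∀ x y w, gen x w y = if x = y then w else 0 := by
    intro x y w
    change (Pi.single x w : X → W) y = _
    by_cases hxy : x = y
    · subst hxy; simp
    · rw [if_neg hxy, Pi.single_eq_of_ne (Ne.symm hxy)]
  obtain ⟨lam, hlam⟩ := Module.projective_lifting_property (p.restrictScalars K)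
    ((hh.restrictScalars K).comp (gen x₀)) hp
  have hlam' : ∀ w, p (lam w) = hh (gen x₀ w) := fun w => LinearMap.congr_fun hlam w
  have key : ∀ (t : S) (l : X) (n : N), (bs K P t * bs K P (τ l)) • n
      = ∑ k, if M.act t l = some k then bs K P (τ k) • n else 0 := by
    intro t l n
    simp only [h.rel]
    rw [bs_mul]
    cases hm : P.mul t (τ l) with
    | none => simp
    | some s =>
      obtain ⟨k₀, rfl⟩ := h.closed l t s hm
      rw [Finset.sum_eq_single k₀]
      · simp
      · intro b _ hb
        rw [if_neg]
        intro h1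
        simp only [Option.some.injEq] at h1
        exact hb (h.inj h1.symm)
      · simp
  let H : M.V W →ₗ[Alg K P] N :=
    { toFun := fun v => ∑ k, bs K P (τ k) • lam (v k)
      map_add' := by
        intro v w
        rw [← Finset.sum_add_distrib]
        refine Finset.sum_congr rfl fun k _ => ?_
        rw [← smul_add, ← map_add]
        rfl
      map_smul' := by
        intro a v
        change ∑ k, bs K P (τ k) • lam ((a • v) k) = a • ∑ k, bs K P (τ k) • lam (v k)
        have h1 : ∀ k, bs K P (τ k) • lam ((a • v) k) = ∑ s, ∑ x,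
            if M.act s x = some k then (a s : K) • (bs K P (τ k) • lam (v x)) else 0 := by
          intro k
          rw [smul_apply, map_sum, Finset.smul_sum]
          refine Finset.sum_congr rfl fun s _ => ?_
          rw [map_sum, Finset.smul_sum]
          refine Finset.sum_congr rfl fun x _ => ?_
          split_ifs
          · rw [map_smul, smul_comm]
          · simp
        simp only [h1]
        conv_rhs => rw [alg_eq_sum P K a]
        rw [Finset.sum_smul, Finset.sum_comm]
        refine Finset.sum_congr rfl fun s _ => ?_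
        rw [Finset.smul_sum, Finset.sum_comm]
        refine Finset.sum_congr rfl fun x _ => ?_
        rw [smul_assoc, smul_smul, key, Finset.smul_sum]
        refine Finset.sum_congr rfl fun k _ => ?_
        split_ifs <;> simp }
  refine ⟨H, ?_⟩
  ext v
  change p (∑ k, bs K P (τ k) • lam (v k)) = hh v
  rw [map_sum]
  have h2 : ∀ k, p (bs K P (τ k) • lam (v k)) = hh (gen k (v k)) := by
    intro k
    rw [map_smul, hlam', ← map_smul]
    congr 1
    funext y
    rw [bs_smul_apply, hgen]
    rw [Finset.sum_eq_single x₀]
    · rw [hgen, if_pos rfl]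
      congr 1
      apply propext
      rw [h.rel, h.base]
      simp only [Option.some.injEq]
      exact ⟨fun h1 => h.inj h1, fun h1 => by rw [h1]⟩
    · intro b _ hb
      rw [hgen, if_neg (Ne.symm hb)]
      simp
    · simp
  simp only [h2]
  rw [← map_sum]
  congr 1
  funext y
  have h3 : (∑ x, gen x (v x)) y = ∑ x, (gen x (v x)) y :=
    Finset.sum_apply (M := fun _ => W) y Finset.univ (fun x => gen x (v x))
  rw [h3, Finset.sum_eq_single y]
  · rw [hgen, if_pos rfl]
  · intro b _ hb
    rw [hgen, if_neg hb]
  · simp

theorem IsProj.pdlt {τ : X → S} {x₀ : X} (h : IsProj M τ x₀) (n : ℕ) : PDlt K M (n + 1) := by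
  intro W _ _
  haveI := h.projective K W
  haveI : CategoryTheory.Projective (ModuleCat.of (Alg K P) (M.V W)) :=
    (ModuleCat.of (Alg K P) (M.V W)).projective_of_categoryTheory_projective
  have h1 : HasProjectiveDimensionLT (ModuleCat.of (Alg K P) (M.V W)) 1 := inferInstance
  exact hasProjectiveDimensionLT_of_ge _ 1 _ (by omega)

end injproj

end Pool.Agent.T6.H92.Gendo
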