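import Pool.Agent.T6.H92.Gendo.Hom

/-!
Products of partial semigroups and of partial actions; injective dimension of outer tensor
products.
-/

set_option linter.unusedSectionVars false
set_option linter.unusedVariables false
set_option linter.style.haveILetI false

namespace Pool.Agent.T6.H92.Gendo

open Finset CategoryTheory

universe u

variable {S : Type} [Fintype S] [DecidableEq S] {T : Type} [Fintype T] [DecidableEq T]

/-- product of partial semigroups -/
def PSG.prod (P : PSG S) (Q : PSG T) : PSG (S × T) where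
  mul p q := (P.mul p.1 q.1).bind fun a => (Q.mul p.2 q.2).map fun b => (a, b)
  assoc a b c := by
    have h1 := P.assoc a.1 b.1 c.1
    have h2 := Q.assoc a.2 b.2 c.2
    cases h3 : P.mul a.1 b.1 <;> cases h4 : P.mul b.1 c.1 <;>
    cases h5 : Q.mul a.2 b.2 <;> cases h6 : Q.mul b.2 c.2 <;>
    simp_all <;> simp [← h1, ← h2]
  isIdem p := P.isIdem p.1 && Q.isIdem p.2
  lft p := (P.lft p.1, Q.lft p.2)
  rgt p := (P.rgt p.1, Q.rgt p.2)
  lft_idem p := by simp [P.lft_idem, Q.lft_idem]
  rgt_idem p := by simp [P.rgt_idem, Q.rgt_idem]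
  hl e s he := by
    simp only [Bool.and_eq_true] at he
    rw [P.hl _ _ he.1, Q.hl _ _ he.2]
    by_cases h1 : e.1 = P.lft s.1
    · by_cases h2 : e.2 = Q.lft s.2
      · rw [if_pos h1, if_pos h2, if_pos (Prod.ext h1 h2)]; rfl
      · rw [if_pos h1, if_neg h2, if_neg (fun h => h2 (by rw [h]))]; rfl
    · have h3 : ¬ e = (P.lft s.1, Q.lft s.2) := fun h => h1 (by rw [h])
      rw [if_neg h1, if_neg h3]; rfl
  hr e s he := by
    simp only [Bool.and_eq_true] at he
    rw [P.hr _ _ he.1, Q.hr _ _ he.2]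
    by_cases h1 : e.1 = P.rgt s.1
    · by_cases h2 : e.2 = Q.rgt s.2
      · rw [if_pos h1, if_pos h2, if_pos (Prod.ext h1 h2)]; rfl
      · rw [if_pos h1, if_neg h2, if_neg (fun h => h2 (by rw [h]))]; rfl
    · have h3 : ¬ e = (P.rgt s.1, Q.rgt s.2) := fun h => h1 (by rw [h])
      rw [if_neg h1, if_neg h3]; rfl

variable {P : PSG S} {Q : PSG T}

theorem prod_mul_eq_some (p q r : S × T) :
    (P.prod Q).mul p q = some r ↔ P.mul p.1 q.1 = some r.1 ∧ Q.mul p.2 q.2 = some r.2 := by
  change ((P.mul p.1 q.1).bind fun a => (Q.mul p.2 q.2).map fun b => (a, b)) = some r ↔ _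
  cases h1 : P.mul p.1 q.1 <;> cases h2 : Q.mul p.2 q.2 <;> simp [Prod.ext_iff]

section bi

variable {X : Type} [Fintype X] [DecidableEq X]

/-- two commuting partial actions -/
def PAct.bi (L : PAct P X) (R : PAct Q X)
    (comm : ∀ s t x, (L.act s x).bind (R.act t) = (R.act t x).bind (L.act s)) :
    PAct (P.prod Q) X where
  act p x := (L.act p.1 x).bind (R.act p.2)
  assoc := by
    rintro ⟨s, t⟩ ⟨s', t'⟩ x
    have h1 := L.assoc s s' x
    have e1 : (((L.act s' x).bind (R.act t')).bind fun y => (L.act s y).bind (R.act t))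
        = ((P.mul s s').bind (fun a => L.act a x)).bind
            (fun y => (Q.mul t t').bind (fun b => R.act b y)) := by
      rw [h1]
      cases h2 : L.act s' x with
      | none => simp
      | some y1 =>
        simp only [Option.bind_some]
        have h3 : ((R.act t' y1).bind fun y => (L.act s y).bind (R.act t))
            = ((R.act t' y1).bind (L.act s)).bind (R.act t) := by rw [Option.bind_assoc]
        rw [h3, ← comm s t' y1, Option.bind_assoc]
        cases h4 : L.act s y1 with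
        | none => simp
        | some y2 => simp only [Option.bind_some]; rw [R.assoc t t' y2]
    change ((P.mul s s').bind fun a => (Q.mul t t').map fun b => (a, b)).bind
      (fun r => (L.act r.1 x).bind (R.act r.2)) = _
    refine Eq.trans ?_ e1.symm
    cases h5 : P.mul s s' with
    | none => simp
    | some a =>
      cases h6 : Q.mul t t' with
      | none => simp
      | some b => simp
  vtx x := (L.vtx x, R.vtx x)
  vtx_idem x := by
    change (P.isIdem _ && Q.isIdem _) = true
    rw [L.vtx_idem, R.vtx_idem]; rfl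
  unit := by
    rintro ⟨e, e'⟩ x he
    change (P.isIdem e && Q.isIdem e') = true at he
    simp only [Bool.and_eq_true] at he
    change (L.act e x).bind (R.act e') = _
    rw [L.unit _ _ he.1]
    by_cases h1 : e = L.vtx x
    · rw [if_pos h1]
      simp only [Option.bind_some]
      rw [R.unit _ _ he.2]
      by_cases h2 : e' = R.vtx x
      · rw [if_pos h2, if_pos (by rw [h1, h2])]
      · rw [if_neg h2, if_neg (fun h => h2 (congrArg Prod.snd h))]
    · rw [if_neg h1, if_neg (fun h => h1 (congrArg Prod.fst h))]; rfl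

theorem IsSES.bi {X₁ X₂ X₃ : Type} [Fintype X₁] [DecidableEq X₁] [Fintype X₂] [DecidableEq X₂]
    [Fintype X₃] [DecidableEq X₃] {L₁ : PAct P X₁} {L₂ : PAct P X₂} {L₃ : PAct P X₃}
    {R₁ : PAct Q X₁} {R₂ : PAct Q X₂} {R₃ : PAct Q X₃} {f : X₁ → X₂} {g : X₃ → X₂}
    (hL : IsSES L₁ L₂ L₃ f g) (hR : IsSES R₁ R₂ R₃ f g) (c₁ c₂ c₃) :
    IsSES (L₁.bi R₁ c₁) (L₂.bi R₂ c₂) (L₃.bi R₃ c₃) f g where
  finj := hL.finj
  ginj := hL.ginj
  disj := hL.disj
  cover := hL.cover
  hf := by
    rintro ⟨s, t⟩ x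
    change (L₂.act s (f x)).bind (R₂.act t) = ((L₁.act s x).bind (R₁.act t)).map f
    rw [hL.hf]
    cases h : L₁.act s x with
    | none => simp
    | some y => simp [hR.hf]
  hg := by
    rintro ⟨s, t⟩ z z'
    change (L₃.act s z).bind (R₃.act t) = some z' ↔ (L₂.act s (g z)).bind (R₂.act t) = some (g z')
    constructor
    · intro h
      cases h1 : L₃.act s z with
      | none => rw [h1] at h; simp at h
      | some w =>
        rw [h1] at h
        rw [(hL.hg s z w).mp h1]
        exact (hR.hg t w z').mp h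
    · intro h
      cases h1 : L₂.act s (g z) with
      | none => rw [h1] at h; simp at h
      | some y =>
        rw [h1] at h
        change R₂.act t y = some (g z') at h
        rcases hL.cover y with ⟨x, rfl⟩ | ⟨w, rfl⟩
        · rw [hR.hf] at h
          cases h3 : R₁.act t x with
          | none => rw [h3] at h; simp at h
          | some w =>
            rw [h3] at h
            simp only [Option.map_some, Option.some.injEq] at h
            exact absurd h (hL.disj _ _)
        · rw [(hL.hg s z w).mpr h1]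
          exact (hR.hg t w z').mpr h

end bi

section ext

variable {X : Type} [Fintype X] [DecidableEq X] {Y : Type} [Fintype Y] [DecidableEq Y]

/-- left action on the first factor -/
def PAct.lext (M : PAct P X) (Y : Type) : PAct P (X × Y) where
  act s p := (M.act s p.1).map fun x => (x, p.2)
  assoc s t p := by
    have h := M.assoc s t p.1
    have h1 : ((P.mul s t).bind fun r => (M.act r p.1).map fun x => (x, p.2))
        = ((P.mul s t).bind fun r => M.act r p.1).map (fun x => (x, p.2)) := by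
      cases P.mul s t <;> simp
    rw [h1, h]
    cases M.act t p.1 <;> simp
  vtx p := M.vtx p.1
  vtx_idem p := M.vtx_idem p.1
  unit e p he := by
    rw [M.unit _ _ he]
    split_ifs <;> rfl

/-- action on the second factor -/
def PAct.rext (N : PAct Q Y) (X : Type) : PAct Q (X × Y) where
  act s p := (N.act s p.2).map fun y => (p.1, y)
  assoc s t p := by
    have h := N.assoc s t p.2
    have h1 : ((Q.mul s t).bind fun r => (N.act r p.2).map fun x => (p.1, x))
        = ((Q.mul s t).bind fun r => N.act r p.2).map (fun x => (p.1, x)) := by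
      cases Q.mul s t <;> simp
    rw [h1, h]
    cases N.act t p.2 <;> simp
  vtx p := N.vtx p.2
  vtx_idem p := N.vtx_idem p.2
  unit e p he := by
    rw [N.unit _ _ he]
    split_ifs <;> rfl

theorem lr_comm (M : PAct P X) (N : PAct Q Y) (s : S) (t : T) (p : X × Y) :
    ((M.lext Y).act s p).bind ((N.rext X).act t) = ((N.rext X).act t p).bind ((M.lext Y).act s) := by
  change ((M.act s p.1).map fun x => (x, p.2)).bind (fun q => (N.act t q.2).map fun y => (q.1, y))
    = ((N.act t p.2).map fun y => (p.1, y)).bind (fun q => (M.act s q.1).map fun x => (x, q.2))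
  cases h1 : M.act s p.1 <;> cases h2 : N.act t p.2 <;> simp [h1, h2]

/-- outer product of partial actions -/
def PAct.prod (M : PAct P X) (N : PAct Q Y) : PAct (P.prod Q) (X × Y) :=
  (M.lext Y).bi (N.rext X) (lr_comm M N)

theorem prod_act_eq_some (M : PAct P X) (N : PAct Q Y) (p : S × T) (x y : X × Y) :
    (M.prod N).act p x = some y ↔ M.act p.1 x.1 = some y.1 ∧ N.act p.2 x.2 = some y.2 := by
  change ((M.act p.1 x.1).map fun a => (a, x.2)).bind
    (fun q => (N.act p.2 q.2).map fun b => (q.1, b)) = some y ↔ _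
  cases h1 : M.act p.1 x.1 <;> cases h2 : N.act p.2 x.2 <;> simp [h1, h2, Prod.ext_iff]

theorem IsSES.lext {X₁ X₂ X₃ : Type} [Fintype X₁] [DecidableEq X₁] [Fintype X₂] [DecidableEq X₂]
    [Fintype X₃] [DecidableEq X₃] {M₁ : PAct P X₁} {M₂ : PAct P X₂} {M₃ : PAct P X₃}
    {f : X₁ → X₂} {g : X₃ → X₂} (h : IsSES M₁ M₂ M₃ f g) (Y : Type) :
    IsSES (M₁.lext Y) (M₂.lext Y) (M₃.lext Y) (Prod.map f id) (Prod.map g id) where
  finj := Function.Injective.prodMap h.finj Function.injective_id
  ginj := Function.Injective.prodMap h.ginj Function.injective_id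
  disj x z hxz := h.disj x.1 z.1 (congrArg Prod.fst hxz)
  cover y := by
    rcases h.cover y.1 with ⟨x, hx⟩ | ⟨z, hz⟩
    · exact Or.inl ⟨(x, y.2), Prod.ext hx rfl⟩
    · exact Or.inr ⟨(z, y.2), Prod.ext hz rfl⟩
  hf s x := by
    change (M₂.act s (f x.1)).map _ = ((M₁.act s x.1).map _).map _
    rw [h.hf]
    cases M₁.act s x.1 <;> simp
  hg s z z' := by
    change (M₃.act s z.1).map (fun a => (a, z.2)) = some z' ↔
      (M₂.act s (g z.1)).map (fun a => (a, z.2)) = some (g z'.1, z'.2)
    have := h.hg s z.1 z'.1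
    constructor
    · intro h1
      cases h2 : M₃.act s z.1 with
      | none => rw [h2] at h1; simp at h1
      | some w =>
        rw [h2] at h1
        simp only [Option.map_some, Option.some.injEq] at h1
        rw [← h1] at this ⊢
        rw [this.mp h2]; rfl
    · intro h1
      cases h2 : M₂.act s (g z.1) with
      | none => rw [h2] at h1; simp at h1
      | some w =>
        rw [h2] at h1
        simp only [Option.map_some, Option.some.injEq, Prod.mk.injEq] at h1
        rw [h1.1] at h2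
        rw [this.mpr h2]
        simp [Prod.ext_iff, h1.2]

theorem IsSES.rext {X₁ X₂ X₃ : Type} [Fintype X₁] [DecidableEq X₁] [Fintype X₂] [DecidableEq X₂]
    [Fintype X₃] [DecidableEq X₃] {M₁ : PAct P X₁} {M₂ : PAct P X₂} {M₃ : PAct P X₃}
    {f : X₁ → X₂} {g : X₃ → X₂} (h : IsSES M₁ M₂ M₃ f g) (Y : Type) :
    IsSES (M₁.rext Y) (M₂.rext Y) (M₃.rext Y) (Prod.map id f) (Prod.map id g) where
  finj := Function.Injective.prodMap Function.injective_id h.finj
  ginj := Function.Injective.prodMap Function.injective_id h.ginj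
  disj x z hxz := h.disj x.2 z.2 (congrArg Prod.snd hxz)
  cover y := by
    rcases h.cover y.2 with ⟨x, hx⟩ | ⟨z, hz⟩
    · exact Or.inl ⟨(y.1, x), Prod.ext rfl hx⟩
    · exact Or.inr ⟨(y.1, z), Prod.ext rfl hz⟩
  hf s x := by
    change (M₂.act s (f x.2)).map _ = ((M₁.act s x.2).map _).map _
    rw [h.hf]
    cases M₁.act s x.2 <;> simp
  hg s z z' := by
    change (M₃.act s z.2).map (fun a => (z.1, a)) = some z' ↔
      (M₂.act s (g z.2)).map (fun a => (z.1, a)) = some (z'.1, g z'.2)
    have := h.hg s z.2 z'.2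
    constructor
    · intro h1
      cases h2 : M₃.act s z.2 with
      | none => rw [h2] at h1; simp at h1
      | some w =>
        rw [h2] at h1
        simp only [Option.map_some, Option.some.injEq] at h1
        rw [← h1] at this ⊢
        rw [this.mp h2]; rfl
    · intro h1
      cases h2 : M₂.act s (g z.2) with
      | none => rw [h2] at h1; simp at h1
      | some w =>
        rw [h2] at h1
        simp only [Option.map_some, Option.some.injEq, Prod.mk.injEq] at h1
        rw [h1.2] at h2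
        rw [this.mpr h2]
        simp [Prod.ext_iff, h1.1]

/-- other action along a splitting of the index set -/
theorem rext_ses {X₁ X₂ X₃ : Type} [Fintype X₁] [DecidableEq X₁] [Fintype X₂] [DecidableEq X₂]
    [Fintype X₃] [DecidableEq X₃] (N : PAct Q Y) {f : X₁ → X₂} {g : X₃ → X₂}
    (finj : Function.Injective f) (ginj : Function.Injective g)
    (disj : ∀ x z, f x ≠ g z) (cover : ∀ y, (∃ x, f x = y) ∨ (∃ z, g z = y)) :
    IsSES (N.rext X₁) (N.rext X₂) (N.rext X₃) (Prod.map f id) (Prod.map g id) where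
  finj := Function.Injective.prodMap finj Function.injective_id
  ginj := Function.Injective.prodMap ginj Function.injective_id
  disj x z hxz := disj x.1 z.1 (congrArg Prod.fst hxz)
  cover y := by
    rcases cover y.1 with ⟨x, hx⟩ | ⟨z, hz⟩
    · exact Or.inl ⟨(x, y.2), Prod.ext hx rfl⟩
    · exact Or.inr ⟨(z, y.2), Prod.ext hz rfl⟩
  hf s x := by
    change (N.act s x.2).map _ = ((N.act s x.2).map _).map _
    cases N.act s x.2 <;> simp
  hg s z z' := by
    change (N.act s z.2).map (fun a => (z.1, a)) = some z' ↔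
      (N.act s z.2).map (fun a => (g z.1, a)) = some (g z'.1, z'.2)
    cases N.act s z.2 with
    | none => simp
    | some w =>
      simp only [Option.map_some, Option.some.injEq, Prod.ext_iff]
      constructor
      · rintro ⟨h1, h2⟩; exact ⟨by rw [h1], h2⟩
      · rintro ⟨h1, h2⟩; exact ⟨ginj h1, h2⟩

theorem lext_ses {X₁ X₂ X₃ : Type} [Fintype X₁] [DecidableEq X₁] [Fintype X₂] [DecidableEq X₂]
    [Fintype X₃] [DecidableEq X₃] (N : PAct P Y) {f : X₁ → X₂} {g : X₃ → X₂}
    (finj : Function.Injective f) (ginj : Function.Injective g)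
    (disj : ∀ x z, f x ≠ g z) (cover : ∀ y, (∃ x, f x = y) ∨ (∃ z, g z = y)) :
    IsSES (N.lext X₁) (N.lext X₂) (N.lext X₃) (Prod.map id f) (Prod.map id g) where
  finj := Function.Injective.prodMap Function.injective_id finj
  ginj := Function.Injective.prodMap Function.injective_id ginj
  disj x z hxz := disj x.2 z.2 (congrArg Prod.snd hxz)
  cover y := by
    rcases cover y.2 with ⟨x, hx⟩ | ⟨z, hz⟩
    · exact Or.inl ⟨(y.1, x), Prod.ext rfl hx⟩
    · exact Or.inr ⟨(y.1, z), Prod.ext rfl hz⟩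
  hf s x := by
    change (N.act s x.1).map _ = ((N.act s x.1).map _).map _
    cases N.act s x.1 <;> simp
  hg s z z' := by
    change (N.act s z.1).map (fun a => (a, z.2)) = some z' ↔
      (N.act s z.1).map (fun a => (a, g z.2)) = some (z'.1, g z'.2)
    cases N.act s z.1 with
    | none => simp
    | some w =>
      simp only [Option.map_some, Option.some.injEq, Prod.ext_iff]
      constructor
      · rintro ⟨h1, h2⟩; exact ⟨h1, by rw [h2]⟩
      · rintro ⟨h1, h2⟩; exact ⟨h1, ginj h2⟩

theorem IsSES.prod_right {X₁ X₂ X₃ : Type} [Fintype X₁] [DecidableEq X₁] [Fintype X₂]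
    [DecidableEq X₂] [Fintype X₃] [DecidableEq X₃] {M₁ : PAct P X₁} {M₂ : PAct P X₂}
    {M₃ : PAct P X₃} {f : X₁ → X₂} {g : X₃ → X₂} (h : IsSES M₁ M₂ M₃ f g) (N : PAct Q Y) :
    IsSES (M₁.prod N) (M₂.prod N) (M₃.prod N) (Prod.map f id) (Prod.map g id) :=
  (h.lext Y).bi (rext_ses N h.finj h.ginj h.disj h.cover) _ _ _

theorem IsSES.prod_left {X₁ X₂ X₃ : Type} [Fintype X₁] [DecidableEq X₁] [Fintype X₂]
    [DecidableEq X₂] [Fintype X₃] [DecidableEq X₃] {M₁ : PAct Q X₁} {M₂ : PAct Q X₂}
    {M₃ : PAct Q X₃} {f : X₁ → X₂} {g : X₃ → X₂} (h : IsSES M₁ M₂ M₃ f g) (N : PAct P Y) :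
    IsSES (N.prod M₁) (N.prod M₂) (N.prod M₃) (Prod.map id f) (Prod.map id g) :=
  (lext_ses N h.finj h.ginj h.disj h.cover).bi (h.rext Y) _ _ _

theorem IsInj.prod {M : PAct P X} {N : PAct Q Y} {σ : X → S} {x₀ : X} {τ : Y → T} {y₀ : Y}
    (hM : IsInj M σ x₀) (hN : IsInj N τ y₀) :
    IsInj (M.prod N) (Prod.map σ τ) (x₀, y₀) where
  rel t l k := by
    rw [prod_act_eq_some, prod_mul_eq_some, hM.rel, hN.rel]
    rfl
  closed k t s h := by
    rw [prod_mul_eq_some] at h
    obtain ⟨l, hl⟩ := hM.closed _ _ _ h.1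
    obtain ⟨l', hl'⟩ := hN.closed _ _ _ h.2
    exact ⟨(l, l'), Prod.ext hl hl'⟩
  inj := Function.Injective.prodMap hM.inj hN.inj
  base k := by
    rw [prod_mul_eq_some]
    exact ⟨hM.base _, hN.base _⟩

end ext

/-! ### two-variable dimension count -/

section two

variable (K : Type u) [Field K] {X : Type} [Fintype X] [DecidableEq X]
  {Y : Type} [Fintype Y] [DecidableEq Y]

/-- `M` has injective resolutions of length `a` compatible with outer products by injectives. -/
def LId (Q : PSG T) (M : PAct P X) (a : ℕ) : Prop :=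
  ∀ (Y : Type) [Fintype Y] [DecidableEq Y] (N : PAct Q Y) (τ : Y → T) (y₀ : Y),
    IsInj N τ y₀ → IDlt K (M.prod N) (a + 1)

/-- the same for the second factor. -/
def RId (P : PSG S) (N : PAct Q Y) (b : ℕ) : Prop :=
  ∀ (X : Type) [Fintype X] [DecidableEq X] (M : PAct P X) (a : ℕ),
    LId K Q M a → IDlt K (M.prod N) (a + b + 1)

variable {K}

theorem IsInj.lid {M : PAct P X} {σ : X → S} {x₀ : X} (h : IsInj M σ x₀) (a : ℕ) :
    LId K Q M a := fun _ _ _ _ _ _ hN => (h.prod hN).idlt K a

theorem IsInj.rid {N : PAct Q Y} {τ : Y → T} {y₀ : Y} (h : IsInj N τ y₀) (b : ℕ) :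
    RId K P N b := fun _ _ _ _ a hM => (hM _ _ _ _ h).mono (by omega)

variable {X₁ X₂ X₃ : Type} [Fintype X₁] [DecidableEq X₁] [Fintype X₂]
    [DecidableEq X₂] [Fintype X₃] [DecidableEq X₃]

theorem IsSES.lid_mid {M₁ : PAct P X₁} {M₂ : PAct P X₂}
    {M₃ : PAct P X₃} {f : X₁ → X₂} {g : X₃ → X₂} (h : IsSES M₁ M₂ M₃ f g) {a : ℕ}
    (h₁ : LId K Q M₁ a) (h₃ : LId K Q M₃ a) : LId K Q M₂ a := by
  intro Y _ _ N τ y₀ hN
  exact (h.prod_right N).id_mid (h₁ _ _ _ _ hN) (h₃ _ _ _ _ hN)

theorem IsSES.lid_sub {M₁ : PAct P X₁} {M₂ : PAct P X₂}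
    {M₃ : PAct P X₃} {f : X₁ → X₂} {g : X₃ → X₂} (h : IsSES M₁ M₂ M₃ f g) {a : ℕ}
    (h₂ : LId K Q M₂ (a + 1)) (h₃ : LId K Q M₃ a) : LId K Q M₁ (a + 1) := by
  intro Y _ _ N τ y₀ hN
  exact (h.prod_right N).id_sub (h₂ _ _ _ _ hN) (h₃ _ _ _ _ hN)

theorem IsSES.rid_mid {M₁ : PAct Q X₁} {M₂ : PAct Q X₂}
    {M₃ : PAct Q X₃} {f : X₁ → X₂} {g : X₃ → X₂} (h : IsSES M₁ M₂ M₃ f g) {b : ℕ}
    (h₁ : RId K P M₁ b) (h₃ : RId K P M₃ b) : RId K P M₂ b := by
  intro X _ _ M a hM
  exact (h.prod_left M).id_mid (h₁ _ _ _ hM) (h₃ _ _ _ hM)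

theorem IsSES.rid_sub {M₁ : PAct Q X₁} {M₂ : PAct Q X₂}
    {M₃ : PAct Q X₃} {f : X₁ → X₂} {g : X₃ → X₂} (h : IsSES M₁ M₂ M₃ f g) {b : ℕ}
    (h₂ : RId K P M₂ (b + 1)) (h₃ : RId K P M₃ b) : RId K P M₁ (b + 1) := by
  intro X _ _ M a hM
  exact (h.prod_left M).id_sub (h₂ _ _ _ hM) (h₃ _ _ _ hM)

end two

end Pool.Agent.T6.H92.Gendo
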