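import Pool.Agent.T6.H92.Gendo.Prod
import Pool.Agent.T6.H92.Gendo.Defs

/-!
Combinatorial criteria for symmetric algebras, generators, endomorphism rings, and for
non-projectivity.
-/

set_option linter.unusedSectionVars false
set_option linter.unusedVariables false
set_option linter.style.haveILetI false

namespace Pool.Agent.T6.H92.Gendo

open Finset CategoryTheory

universe u

variable {S : Type} [Fintype S] [DecidableEq S] {T : Type} [Fintype T] [DecidableEq T]
variable {X : Type} [Fintype X] [DecidableEq X]

/-! ### symmetric algebras -/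

structure SymData (P : PSG S) (soc : S → Bool) (π : S → S) : Prop where
  form : ∀ a b, (∃ c, P.mul a b = some c ∧ soc c = true) ↔ b = π a
  bij : Function.Bijective π
  comm : ∀ a b, π a = b ↔ π b = a

theorem mul_apply_alg (K : Type u) [Field K] (P : PSG S) (a b : Alg K P) (y : S) :
    (a * b) y = ∑ s, ∑ x, if P.mul s x = some y then (a s : K) * b x else 0 := rfl

theorem SymData.symmetric (K : Type u) [Field K] {P : PSG S} {soc : S → Bool} {π : S → S}
    (h : SymData P soc π) : IsSymmetricAlg K (Alg K P) := by
  refine ⟨inferInstance, ?_⟩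
  -- the trace form
  let tr : Alg K P → K := fun x => ∑ s, if soc s = true then x s else 0
  have htr : ∀ x y : Alg K P, tr (x * y) = ∑ a, (x a : K) * y (π a) := by
    intro x y
    have h1 : tr (x * y) = ∑ s, ∑ a, ∑ b, if soc s = true ∧ P.mul a b = some s
        then (x a : K) * y b else 0 := by
      refine Finset.sum_congr rfl fun s _ => ?_
      by_cases hs : soc s = true
      · rw [if_pos hs, mul_apply_alg]
        simp only [hs, true_and]
      · rw [if_neg hs]
        simp [hs]
    rw [h1, Finset.sum_comm]
    refine Finset.sum_congr rfl fun a _ => ?_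
    rw [Finset.sum_comm, Finset.sum_eq_single (π a)]
    · obtain ⟨c, hc1, hc2⟩ := (h.form a (π a)).mpr rfl
      rw [Finset.sum_eq_single c]
      · rw [if_pos ⟨hc2, hc1⟩]
      · intro b _ hb
        rw [if_neg]
        rintro ⟨_, h3⟩
        rw [hc1] at h3
        simp only [Option.some.injEq] at h3
        exact hb h3.symm
      · simp
    · intro b _ hb
      apply Finset.sum_eq_zero
      intro s _
      rw [if_neg]
      rintro ⟨h2, h3⟩
      exact hb ((h.form a b).mp ⟨s, h3, h2⟩)
    · simp
  have hcomm : ∀ x y : Alg K P, tr (x * y) = tr (y * x) := by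
    intro x y
    rw [htr, htr]
    have hinv : ∀ a, π (π a) = a := fun a => (h.comm a (π a)).mp rfl
    refine Finset.sum_bijective π h.bij (fun _ => by simp) ?_
    intro a _
    rw [hinv, mul_comm]
  let form : Alg K P →ₗ[K] Module.Dual K (Alg K P) :=
    LinearMap.mk₂ K (fun x y => ∑ a, (x a : K) * y (π a))
      (by intro x x' y
          change ∑ a, ((x a : K) + x' a) * y (π a) = _
          simp only [add_mul, Finset.sum_add_distrib])
      (by intro c x y
          change ∑ a, (c * (x a : K)) * y (π a) = c * _
          rw [Finset.mul_sum]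
          exact Finset.sum_congr rfl fun a _ => by rw [mul_assoc])
      (by intro x y y'
          change ∑ a, (x a : K) * (y (π a) + y' (π a)) = _
          simp only [mul_add, Finset.sum_add_distrib])
      (by intro c x y
          change ∑ a, (x a : K) * (c * y (π a)) = c * _
          rw [Finset.mul_sum]
          exact Finset.sum_congr rfl fun a _ => by ring)
  have hform : ∀ x y, form x y = tr (x * y) := fun x y => (htr x y).symm
  have hinj : Function.Injective form := by
    rw [injective_iff_map_eq_zero]
    intro x hx
    funext a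
    have h1 : form x (bs K P (π a)) = 0 := by rw [hx]; rfl
    have h2 : form x (bs K P (π a)) = ∑ b, (x b : K) * bs K P (π a) (π b) := rfl
    rw [h2, Finset.sum_eq_single a] at h1
    · have h3 : bs K P (π a) (π a) = (1 : K) := Pi.single_eq_same _ _
      rw [h3, mul_one] at h1
      exact h1
    · intro b _ hb
      have h3 : bs K P (π a) (π b) = (0 : K) :=
        Pi.single_eq_of_ne (fun h4 => hb (h.bij.1 h4)) _
      rw [h3, mul_zero]
    · simp
  have hfr : Module.finrank K (Alg K P) = Module.finrank K (Module.Dual K (Alg K P)) :=
    Subspace.dual_finrank_eq.symm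
  refine ⟨LinearEquiv.ofInjectiveOfFinrankEq form hinj hfr, ?_⟩
  intro a b x y
  change form (a * x * b) y = form x (b * y * a)
  rw [hform, hform, mul_assoc, mul_assoc, hcomm]
  congr 1
  simp only [mul_assoc]

/-! ### non-projectivity -/

theorem IsSES.not_projective (K : Type u) [Field K] {P : PSG S}
    {X₁ X₂ X₃ : Type} [Fintype X₁] [DecidableEq X₁] [Fintype X₂] [DecidableEq X₂]
    [Fintype X₃] [DecidableEq X₃] {M₁ : PAct P X₁} {M₂ : PAct P X₂} {M₃ : PAct P X₃}
    {f : X₁ → X₂} {g : X₃ → X₂} (h : IsSES M₁ M₂ M₃ f g) (x₁ : X₁) (s : S) (y : X₂)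
    (hy : M₂.act s y = some (f x₁)) (hno : ∀ x, M₁.act s x ≠ some x₁) :
    ¬ HasProjectiveDimensionLT (ModuleCat.of (Alg K P) (M₃.V K)) 1 := by
  intro hp
  haveI : Projective (ModuleCat.of (Alg K P) (M₃.V K)) :=
    projective_iff_hasProjectiveDimensionLT_one.mpr hp
  haveI : Module.Projective (Alg K P) (M₃.V K) :=
    (IsProjective.iff_projective (M₃.V K)).mpr inferInstance
  obtain ⟨sec, hsec⟩ := Module.projective_lifting_property (h.G K K) LinearMap.id
    (h.G_surjective K K)
  have hsec' : ∀ v, h.G K K (sec v) = v := fun v => LinearMap.congr_fun hsec v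
  -- delta functions
  let δ₂ : X₂ → M₂.V K := fun z => (Pi.single z (1 : K) : X₂ → K)
  have h1 : bs K P s • δ₂ y = δ₂ (f x₁) := by
    funext z
    rw [bs_smul_apply, Finset.sum_eq_single y]
    · rw [hy]
      change (if some (f x₁) = some z then (Pi.single y (1 : K) : X₂ → K) y else 0)
        = (Pi.single (f x₁) (1 : K) : X₂ → K) z
      by_cases hz : f x₁ = z
      · subst hz; simp
      · rw [if_neg (by simpa using hz), Pi.single_eq_of_ne (Ne.symm hz)]
    · intro b _ hb
      change (if M₂.act s b = some z then (Pi.single y (1 : K) : X₂ → K) b else 0) = 0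
      rw [Pi.single_eq_of_ne hb]
      simp
    · simp
  -- the retraction applied to δ₂ y
  let w : M₂.V K := δ₂ y - sec (h.G K K (δ₂ y))
  have hw : h.G K K w = 0 := by
    rw [map_sub, hsec', sub_self]
  obtain ⟨u, hu⟩ := (h.exact K K w).mp hw
  have h2 : bs K P s • w = δ₂ (f x₁) := by
    have h3 : h.G K K (δ₂ (f x₁)) = 0 := by
      funext z
      change (Pi.single (f x₁) (1 : K) : X₂ → K) (g z) = 0
      exact Pi.single_eq_of_ne (Ne.symm (h.disj x₁ z)) _
    change bs K P s • (δ₂ y - sec (h.G K K (δ₂ y))) = _
    rw [smul_sub, h1, ← map_smul, ← map_smul, h1, h3, map_zero, sub_zero]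
  have h4 : h.F K K (bs K P s • u) = δ₂ (f x₁) := by
    rw [map_smul, hu, h2]
  have h5 := congrFun h4 (f x₁)
  have h6 : (h.F K K (bs K P s • u)) (f x₁) = (bs K P s • u) x₁ :=
    extFn_f K h.finj (show X₁ → K from bs K P s • u) x₁
  rw [h6, bs_smul_apply, Finset.sum_eq_zero] at h5
  · have h7 : δ₂ (f x₁) (f x₁) = (1 : K) := Pi.single_eq_same _ _
    rw [h7] at h5
    exact zero_ne_one h5
  · intro x _
    rw [if_neg (hno x)]

/-! ### endomorphism rings -/

structure EndData {P : PSG S} {Q : PSG T} (L : PAct P X) (R : PAct Q X) (m : S → X) (ν : S → X) :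
    Prop where
  comm : ∀ s t x, (L.act s x).bind (R.act t) = (R.act t x).bind (L.act s)
  gen : ∀ s e, P.isIdem e = true → L.act s (m e) = if P.rgt s = e then some (ν s) else none
  inj : ∀ s s', P.rgt s = P.rgt s' → ν s = ν s' → s = s'
  span : ∀ x, ∃ q e, P.isIdem e = true ∧ R.act q (m e) = some x
  ann : ∀ e x, P.isIdem e = true → (∃ s, P.rgt s = e ∧ ν s = x) ∨
    ∃ q y, R.act q (m e) = none ∧ R.act q x = some y ∧ ∀ x', R.act q x' = some y → x' = x

section endo

variable (K : Type u) [Field K] {P : PSG S} {Q : PSG T} {L : PAct P X} {R : PAct Q X}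
  {m ν : S → X}

theorem conv_conv2 (act : S → X → Option X) (act' : T → X → Option X) (a : S → K) (b : T → K)
    (v : X → K) (z : X) :
    conv act a (conv act' b v) z = ∑ s, ∑ t, ∑ x,
      if (act' t x).bind (act s) = some z then (a s * b t) • v x else 0 := by
  simp only [conv]
  refine Finset.sum_congr rfl fun s _ => ?_
  have h1 : ∀ y, (if act s y = some z then
      a s • ∑ t, ∑ x, (if act' t x = some y then b t • v x else 0) else 0)
      = ∑ t, ∑ x, if act s y = some z ∧ act' t x = some y then (a s * b t) • v x else 0 := by
    intro y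
    by_cases h : act s y = some z
    · simp only [h, if_true, true_and, Finset.smul_sum]
      refine Finset.sum_congr rfl fun t _ => Finset.sum_congr rfl fun x _ => ?_
      split_ifs <;> simp [mul_assoc]
    · simp [h]
  simp only [h1]
  rw [Finset.sum_comm]
  refine Finset.sum_congr rfl fun t _ => ?_
  rw [Finset.sum_comm]
  refine Finset.sum_congr rfl fun x _ => ?_
  cases h : act' t x with
  | none => simp
  | some y =>
    simp only [Option.bind_some, Option.some.injEq]
    rw [Finset.sum_eq_single y]
    · simp
    · intro b _ hb
      rw [if_neg]; rintro ⟨_, h2⟩; exact hb h2.symm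
    · simp

theorem conv_comm (h : EndData L R m ν) (a : S → K) (b : T → K) (v : X → K) :
    conv L.act a (conv R.act b v) = conv R.act b (conv L.act a v) := by
  funext z
  rw [conv_conv2, conv_conv2, Finset.sum_comm]
  refine Finset.sum_congr rfl fun t _ => Finset.sum_congr rfl fun s _ =>
    Finset.sum_congr rfl fun x _ => ?_
  rw [h.comm, mul_comm]

/-- the action as an algebra homomorphism -/
def EndData.hom (h : EndData L R m ν) : Alg K P →ₐ[K] Module.End (Alg K Q) (R.V K) where
  toFun a :=
    { toFun := fun v => (show R.V K from (a • (show L.V K from v)))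
      map_add' := fun v w => conv_add_right (K := K) L.act a v w
      map_smul' := fun b v => conv_comm K h a b v }
  map_one' := by
    ext v
    exact one_smul (Alg K P) (show L.V K from v)
  map_mul' a b := by
    ext v
    exact mul_smul a b (show L.V K from v)
  map_zero' := by
    ext v
    exact zero_smul (Alg K P) (show L.V K from v)
  map_add' a b := by
    ext v
    exact add_smul a b (show L.V K from v)
  commutes' c := by
    ext v
    change (algebraMap K (Alg K P) c) • (show L.V K from v) = c • (show L.V K from v)
    rw [algebraMap_smul]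

theorem EndData.hom_bijective (h : EndData L R m ν) : Function.Bijective (h.hom K) := by
  let δ : X → R.V K := fun z => (Pi.single z (1 : K) : X → K)
  have hδ : ∀ z z', δ z z' = if z' = z then (1 : K) else 0 := fun z z' => Pi.single_apply _ _ _
  have hgen : ∀ (a : Alg K P) (e : S) (he : P.isIdem e = true) (x : X),
      (h.hom K a (δ (m e))) x = ∑ s, if P.rgt s = e ∧ ν s = x then (a s : K) else 0 := by
    intro a e he x
    change (a • (show L.V K from δ (m e))) x = _
    rw [smul_apply]
    refine Finset.sum_congr rfl fun s _ => ?_
    change (∑ x', if L.act s x' = some x then (show K from a s) * (δ (m e) x') else 0) = _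
    simp only [hδ]
    rw [Finset.sum_eq_single (m e)]
    · rw [if_pos rfl, h.gen s e he]
      by_cases h2 : P.rgt s = e
      · by_cases h3 : ν s = x
        · simp [h2, h3]
        · simp [h2, h3]
      · simp [h2]
    · intro b _ hb
      rw [if_neg hb]
      simp
    · simp
  constructor
  · rw [injective_iff_map_eq_zero]
    intro a ha
    funext s
    have h1 := hgen a (P.rgt s) (P.rgt_idem s) (ν s)
    rw [ha, Finset.sum_eq_single s] at h1
    · rw [if_pos ⟨rfl, rfl⟩] at h1
      exact h1.symm
    · intro b _ hb
      rw [if_neg]
      rintro ⟨h2, h3⟩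
      exact hb (h.inj b s h2 h3)
    · simp
  · intro φ
    let a : Alg K P := fun s => φ (δ (m (P.rgt s))) (ν s)
    refine ⟨a, ?_⟩
    -- agreement on generators
    have hag : ∀ e, P.isIdem e = true → h.hom K a (δ (m e)) = φ (δ (m e)) := by
      intro e he
      funext x
      rw [hgen a e he x]
      rcases h.ann e x he with ⟨s, hs1, hs2⟩ | ⟨q, y, hq1, hq2, hq3⟩
      · rw [Finset.sum_eq_single s]
        · rw [if_pos ⟨hs1, hs2⟩]
          change φ (δ (m (P.rgt s))) (ν s) = _
          rw [hs1, hs2]
        · intro b _ hb
          rw [if_neg]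
          rintro ⟨h2, h3⟩
          exact hb (h.inj b s (by rw [h2, hs1]) (by rw [h3, hs2]))
        · simp
      · -- x is not in the image
        have h1 : bs K Q q • δ (m e) = 0 := by
          funext z
          rw [bs_smul_apply]
          apply Finset.sum_eq_zero
          intro x' _
          by_cases h2 : x' = m e
          · subst h2
            rw [hq1]
            simp
          · rw [hδ, if_neg h2]
            simp
        have h2 : (bs K Q q • φ (δ (m e))) y = φ (δ (m e)) x := by
          rw [bs_smul_apply, Finset.sum_eq_single x]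
          · rw [if_pos hq2]
          · intro b _ hb
            rw [if_neg]
            intro h3
            exact hb (hq3 b h3)
          · simp
        rw [← map_smul, h1, map_zero] at h2
        have h3 : φ (δ (m e)) x = 0 := h2.symm
        rw [h3]
        apply Finset.sum_eq_zero
        intro s _
        rw [if_neg]
        rintro ⟨h4, h5⟩
        -- then ν s = x, contradiction with annihilation of the generator
        have h6 : L.act s (m e) = some x := by
          rw [h.gen s e he, if_pos h4, h5]
        have h7 := h.comm s q (m e)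
        rw [h6, hq1] at h7
        simp only [Option.bind_some, Option.bind_none] at h7
        rw [hq2] at h7
        simp at h7
    -- agreement on all delta functions
    have hδall : ∀ x, h.hom K a (δ x) = φ (δ x) := by
      intro x
      obtain ⟨q, e, he, hqe⟩ := h.span x
      have h1 : bs K Q q • δ (m e) = δ x := by
        funext z
        rw [bs_smul_apply, Finset.sum_eq_single (m e)]
        · rw [hqe, hδ, hδ]
          by_cases hz : x = z
          · subst hz; simp
          · rw [if_neg (by simpa using hz), if_neg (Ne.symm hz)]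
        · intro b _ hb
          rw [hδ, if_neg hb]
          simp
        · simp
      rw [← h1, map_smul, map_smul, hag e he]
    apply LinearMap.ext
    intro v
    have hv : v = ∑ x, (algebraMap K (Alg K Q) (v x)) • δ x := by
      funext z
      have h1 : (∑ x, (algebraMap K (Alg K Q) (v x)) • δ x) z
          = ∑ x, ((algebraMap K (Alg K Q) (v x)) • δ x) z :=
        Finset.sum_apply (M := fun _ => K) z Finset.univ
          (fun x => (algebraMap K (Alg K Q) (v x)) • δ x)
      rw [h1, Finset.sum_eq_single z]
      · rw [algebraMap_smul]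
        change v z = (v z : K) • (δ z z)
        rw [hδ]; simp
      · intro b _ hb
        rw [algebraMap_smul]
        change (v b : K) • (δ b z) = 0
        rw [hδ, if_neg (Ne.symm hb)]; simp
      · simp
    rw [hv, map_sum, map_sum]
    refine Finset.sum_congr rfl fun x _ => ?_
    rw [map_smul, map_smul, hδall]

end endo

/-! ### gendo-symmetric algebras -/

/-- identity of the regular module -/
def regEquiv (K : Type u) [Field K] (Q : PSG T) : Alg K Q ≃ₗ[Alg K Q] (Q.self).V K where
  toFun x := x
  invFun x := x
  left_inv _ := rfl
  right_inv _ := rfl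
  map_add' _ _ := rfl
  map_smul' _ _ := rfl

theorem gendoSymmetric_of (K : Type u) [Field K] {P : PSG S} {Q : PSG T}
    {L : PAct P X} {R : PAct Q X} {m ν : S → X} (h : EndData L R m ν)
    {soc : T → Bool} {π : T → T} (hs : SymData Q soc π)
    {Y : Type} [Fintype Y] [DecidableEq Y] {N : PAct Q Y} {f : T → X} {g : Y → X}
    (h1 : IsSES Q.self R N f g) (h2 : IsSES N R Q.self g f) :
    IsGendoSymmetric K (Alg K P) := by
  refine ⟨Alg K Q, inferInstance, inferInstance, R.V K, inferInstance, inferInstance,
    inferInstance, inferInstance, hs.symmetric K, ?_, ?_, ?_⟩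
  · haveI : Module.Finite K (R.V K) := inferInstanceAs (Module.Finite K (X → K))
    exact Module.Finite.of_restrictScalars_finite K (Alg K Q) (R.V K)
  · refine ⟨(h1.F K K).comp (regEquiv K Q).toLinearMap,
      ((regEquiv K Q).symm.toLinearMap).comp (h2.G K K), ?_⟩
    intro b
    funext z
    exact extFn_f K h1.finj (show T → K from b) z
  · exact ⟨AlgEquiv.ofBijective (h.hom K) (h.hom_bijective K)⟩

end Pool.Agent.T6.H92.Gendo
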