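import Pool.Agent.T6.H92.Gendo.Prod

/-!
The enveloping algebra of the algebra of a partial semigroup.
-/

set_option linter.unusedSectionVars false
set_option linter.unusedVariables false
set_option linter.style.haveILetI false

namespace Pool.Agent.T6.H92.Gendo

open Finset CategoryTheory TensorProduct MulOpposite

universe u

variable {S : Type} [Fintype S] [DecidableEq S]

variable (K : Type u) [Field K] (P : PSG S)

/-- basis of the algebra -/
noncomputable def algBasis : Module.Basis S K (Alg K P) := Pi.basisFun K S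

theorem algBasis_repr (a : Alg K P) (s : S) : (algBasis K P).repr a s = a s := by
  exact Pi.basisFun_repr K S (show S → K from a) s

noncomputable def envLin : Alg K P ⊗[K] (Alg K P)ᵐᵒᵖ ≃ₗ[K] Alg K (P.prod P.op) :=
  ((algBasis K P).tensorProduct ((algBasis K P).map (opLinearEquiv K))).equivFun

theorem envLin_tmul (a : Alg K P) (b : (Alg K P)ᵐᵒᵖ) (p : S × S) :
    envLin K P (a ⊗ₜ b) p = a p.1 * b.unop p.2 := by
  obtain ⟨s, t⟩ := p
  change ((algBasis K P).tensorProduct ((algBasis K P).map (opLinearEquiv K))).equivFun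
    (a ⊗ₜ b) (s, t) = _
  rw [Module.Basis.equivFun_apply, Module.Basis.tensorProduct_repr_tmul_apply]
  rw [algBasis_repr]
  simp only [Module.Basis.map_repr, LinearEquiv.trans_apply, coe_opLinearEquiv_symm, smul_eq_mul]
  rw [algBasis_repr, mul_comm]

theorem sum_four (A : S → S → K) (B : S → S → K) :
    ∑ x, ∑ w, ∑ y, ∑ z, A x y * B z w = (∑ x, ∑ y, A x y) * (∑ z, ∑ w, B z w) := by
  simp only [← Finset.mul_sum, ← Finset.sum_mul]
  rw [Finset.sum_comm (f := fun z w => B z w)]

theorem envLin_mul (a₁ a₂ : Alg K P) (b₁ b₂ : (Alg K P)ᵐᵒᵖ) :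
    envLin K P ((a₁ * a₂) ⊗ₜ (b₁ * b₂)) = envLin K P (a₁ ⊗ₜ b₁) * envLin K P (a₂ ⊗ₜ b₂) := by
  funext p
  obtain ⟨s, t⟩ := p
  rw [envLin_tmul]
  change (conv (K := K) (W := K) P.mul a₁ a₂) s * (conv (K := K) (W := K) P.mul b₂.unop b₁.unop) t
    = conv (K := K) (W := K) (P.prod P.op).mul (envLin K P (a₁ ⊗ₜ b₁)) (envLin K P (a₂ ⊗ₜ b₂)) (s, t)
  simp only [conv]
  rw [← sum_four K (fun x y => if P.mul x y = some s then a₁ x • a₂ y else 0)
    (fun z w => if P.mul z w = some t then b₂.unop z • b₁.unop w else 0)]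
  rw [Fintype.sum_prod_type]
  refine Finset.sum_congr rfl fun x _ => Finset.sum_congr rfl fun w _ => ?_
  rw [Fintype.sum_prod_type]
  refine Finset.sum_congr rfl fun y _ => Finset.sum_congr rfl fun z _ => ?_
  simp only [prod_mul_eq_some, envLin_tmul]
  by_cases h1 : P.mul x y = some s
  · by_cases h2 : P.mul z w = some t
    · have h3 : P.mul x y = some s ∧ P.op.mul w z = some t := ⟨h1, h2⟩
      rw [if_pos h1, if_pos h2, if_pos h3]
      simp only [smul_eq_mul]
      ring
    · have h3 : ¬ (P.mul x y = some s ∧ P.op.mul w z = some t) := fun h => h2 h.2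
      rw [if_neg h2, if_neg h3, mul_zero]
  · have h3 : ¬ (P.mul x y = some s ∧ P.op.mul w z = some t) := fun h => h1 h.1
    rw [if_neg h1, if_neg h3, zero_mul]

theorem envLin_one : envLin K P ((1 : Alg K P) ⊗ₜ (1 : (Alg K P)ᵐᵒᵖ)) = 1 := by
  funext p
  obtain ⟨s, t⟩ := p
  rw [envLin_tmul]
  change (if P.isIdem s = true then (1 : K) else 0) * (if P.isIdem t = true then (1 : K) else 0)
    = (if (P.isIdem s && P.isIdem t) = true then (1 : K) else 0)
  cases P.isIdem s <;> cases P.isIdem t <;> simp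

/-- the enveloping algebra is the algebra of the product -/
noncomputable def envEquiv : Alg K P ⊗[K] (Alg K P)ᵐᵒᵖ ≃ₐ[K] Alg K (P.prod P.op) :=
  Algebra.TensorProduct.algEquivOfLinearEquivTensorProduct (envLin K P)
    (fun a₁ a₂ b₁ b₂ => envLin_mul K P a₁ a₂ b₁ b₂) (envLin_one K P)

theorem envEquiv_tmul (a : Alg K P) (b : (Alg K P)ᵐᵒᵖ) (p : S × S) :
    envEquiv K P (a ⊗ₜ b) p = a p.1 * b.unop p.2 := envLin_tmul K P a b p

/-- right regular action, as a partial action of the opposite -/
def PSG.selfR (P : PSG S) : PAct P.op S := P.op.self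

/-- the regular bimodule -/
def PSG.bimod (P : PSG S) : PAct (P.prod P.op) S :=
  P.self.bi P.selfR (fun s t x => P.assoc s x t)

/-- identity -/
def toBi (x : Alg K P) : P.bimod.V K := x

theorem toBi_zero : toBi K P 0 = 0 := rfl
theorem toBi_add (x y : Alg K P) : toBi K P (x + y) = toBi K P x + toBi K P y := rfl

theorem bimod_smul (a b x : Alg K P) :
    (envEquiv K P (a ⊗ₜ op b)) • toBi K P x = toBi K P (a * x * b) := by
  funext z
  rw [smul_apply]
  change _ = conv (K := K) (W := K) P.mul (conv (K := K) (W := K) P.mul a x) b z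
  rw [conv_mul P P.mul a x b z, Fintype.sum_prod_type]
  refine Finset.sum_congr rfl fun s _ => ?_
  rw [Finset.sum_comm]
  refine Finset.sum_congr rfl fun y _ => Finset.sum_congr rfl fun t _ => ?_
  simp only [envEquiv_tmul]
  change (if (P.mul s y).bind (fun r => P.mul r t) = some z then (a s * b t) * x y else 0)
    = (if (P.mul s y).bind (fun r => P.mul r t) = some z then (a s * x y) * b t else 0)
  split_ifs
  · ring
  · rfl

attribute [local instance] TensorProduct.Algebra.module RingHomInvPair.of_ringEquiv in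
theorem transfer (n : ℕ) (h : IDlt K P.bimod (n + 1)) :
    injectiveDimension (ModuleCat.of (Alg K P ⊗[K] (Alg K P)ᵐᵒᵖ) (Alg K P)) ≤ n := by
  rw [injectiveDimension_le_iff]
  have hsm : ∀ (r : Alg K P ⊗[K] (Alg K P)ᵐᵒᵖ) (x : Alg K P),
      toBi K P (r • x) = (envEquiv K P r) • toBi K P x := by
    intro r x
    induction r using TensorProduct.induction_on with
    | zero =>
      refine (congrArg (toBi K P) (zero_smul (Alg K P ⊗[K] (Alg K P)ᵐᵒᵖ) x)).trans ?_
      rw [map_zero, zero_smul, toBi_zero]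
    | tmul a b =>
      refine Eq.trans ?_ (bimod_smul K P a b.unop x).symm
      refine congrArg (toBi K P) ?_
      change a • b • x = a * x * b.unop
      rw [MulOpposite.smul_eq_mul_unop, smul_eq_mul, mul_assoc]
    | add r r' h1 h2 =>
      refine (congrArg (toBi K P) (add_smul r r' x)).trans ?_
      rw [map_add, add_smul, ← h1, ← h2, toBi_add]
  let e : (ModuleCat.of (Alg K P ⊗[K] (Alg K P)ᵐᵒᵖ) (Alg K P)) ≃ₛₗ[RingHomClass.toRingHom
    (envEquiv K P).toRingEquiv] (ModuleCat.of (Alg K (P.prod P.op)) (P.bimod.V K)) :=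
    { toFun := fun x => x
      invFun := fun x => x
      left_inv := fun _ => rfl
      right_inv := fun _ => rfl
      map_add' := fun _ _ => rfl
      map_smul' := fun r x => hsm r x }
  exact (ModuleCat.hasInjectiveDimensionLE_iff_of_semiLinearEquiv (envEquiv K P).toRingEquiv e n).mpr h

end Pool.Agent.T6.H92.Gendo
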