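import Pool.Agent.T6.H92.Gendo.Sym
import Pool.Agent.T6.H92.Gendo.Transfer
import Pool.Agent.T6.H92.Gendo.GlDim

/-! Tables coded by natural numbers in base 32. -/

namespace Pool.Agent.T6.H92.Gendo

/-- a number as an element of `Fin n` -/
def toF (n v : ℕ) : Option (Fin n) := if h : v < n then some ⟨v, h⟩ else none

/-- partial action from a table -/
def actT (N n : ℕ) {k : ℕ} (s : Fin k) (x : Fin n) : Option (Fin n) :=
  toF n ((N >>> (5 * (n * s.val + x.val))) % 32)

/-- vector from a table -/
def vecT (N : ℕ) {k n : ℕ} [NeZero n] (i : Fin k) : Fin n :=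
  Fin.ofNat n ((N >>> (5 * i.val)) % 32)

/-- vertices from a table -/
def vtxT (N : ℕ) {k : ℕ} (i : Fin k) : Fin 25 := vecT N i

end Pool.Agent.T6.H92.Gendo
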